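import Mathlib

set_option autoImplicit false

namespace Pool.Agent.Lib66

/-- A word without a nonempty square factor. -/
def SqFree {α : Type*} (l : List α) : Prop := ∀ s : List α, s ≠ [] → ¬ (s ++ s) <:+: l

open Classical in
/-- The square-free words of length `n` over four letters. -/
noncomputable def SF : ℕ → Finset (List (Fin 4))
  | 0 => {[]}
  | (n+1) => ((SF n ×ˢ (Finset.univ : Finset (Fin 4))).image (fun x => x.2 :: x.1)).filter
      (fun l => SqFree l)

theorem SqFree.of_suffix {α : Type*} {l l' : List α} (h : SqFree l) (hs : l' <:+ l) : SqFree l' :=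
  fun s hs0 hi => h s hs0 (hi.trans hs.isInfix)

theorem mem_SF (n : ℕ) (l : List (Fin 4)) : l ∈ SF n ↔ (l.length = n ∧ SqFree l) := by
  classical
  induction n generalizing l with
  | zero =>
    simp only [SF, Finset.mem_singleton, List.length_eq_zero_iff]
    constructor
    · rintro rfl
      refine ⟨rfl, ?_⟩
      intro s hs hi
      have := hi.length_le
      simp at this
      exact hs this
    · exact fun h => h.1
  | succ n ih =>
    simp only [SF, Finset.mem_filter, Finset.mem_image, Finset.mem_product, Finset.mem_univ,
      and_true, Prod.exists]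
    constructor
    · rintro ⟨⟨l', a, hl', rfl⟩, hsf⟩
      refine ⟨?_, hsf⟩
      simp [((ih l').1 hl').1]
    · rintro ⟨hlen, hsf⟩
      refine ⟨?_, hsf⟩
      cases l with
      | nil => simp at hlen
      | cons a l' =>
        refine ⟨l', a, ?_, rfl⟩
        rw [ih]
        refine ⟨by simpa using hlen, hsf.of_suffix (List.suffix_cons a l')⟩

theorem card_SF_succ (n : ℕ) :
    4 * (SF n).card ≤ (SF (n+1)).card + ∑ i ∈ Finset.range (n+1), (SF i).card := by
  classical
  set E : Finset (List (Fin 4)) :=
    (SF n ×ˢ (Finset.univ : Finset (Fin 4))).image (fun x => x.2 :: x.1) with hE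
  have hEcard : E.card = 4 * (SF n).card := by
    rw [hE, Finset.card_image_of_injective, Finset.card_product]
    · simp [mul_comm]
    · rintro ⟨a, b⟩ ⟨c, d⟩ h
      simp only [List.cons.injEq] at h
      simp [h.1, h.2]
  have hsplit : E.card = (E.filter (fun l => SqFree l)).card + (E.filter (fun l => ¬ SqFree l)).card :=
    (Finset.card_filter_add_card_filter_not (s := E) (fun l => SqFree l)).symm
  have hbad : (E.filter (fun l => ¬ SqFree l)) ⊆
      (Finset.range (n+1)).biUnion (fun i => (SF i).image (fun r => r.take (n+1-i) ++ r)) := by
    intro l hl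
    simp only [Finset.mem_filter, hE, Finset.mem_image, Finset.mem_product, Finset.mem_univ,
      and_true, Prod.exists] at hl
    obtain ⟨⟨l', a, hl', rfl⟩, hns⟩ := hl
    have hl'' := (mem_SF n l').1 hl'
    unfold SqFree at hns
    push Not at hns
    obtain ⟨s, hs0, hinf⟩ := hns
    -- the square must be a prefix
    have hpre : (s ++ s) <+: (a :: l') := by
      rcases List.infix_cons_iff.1 hinf with h | h
      · exact h
      · exact absurd h (hl''.2 s hs0)
    obtain ⟨r, hr⟩ := hpre
    have hslen : 1 ≤ s.length := by
      rcases s with _ | ⟨b, s⟩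
      · exact absurd rfl hs0
      · simp
    have hlen : s.length + s.length + r.length = n + 1 := by
      have := congrArg List.length hr
      simp only [List.length_append, List.length_cons, hl''.1] at this
      exact this
    rw [Finset.mem_biUnion]
    refine ⟨s.length + r.length, Finset.mem_range.2 (by omega), ?_⟩
    rw [Finset.mem_image]
    refine ⟨s ++ r, ?_, ?_⟩
    · rw [mem_SF]
      refine ⟨by simp, ?_⟩
      -- `s ++ r` is a suffix of `l'`
      apply hl''.2.of_suffix
      rcases s with _ | ⟨b, s⟩
      · exact absurd rfl hs0
      · have h2 : l' = s ++ ((b :: s) ++ r) := by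
          have : a :: l' = b :: (s ++ ((b :: s) ++ r)) := by
            rw [← hr]; simp
          exact (List.cons.inj this).2
        exact ⟨s, h2.symm⟩
    · have : n + 1 - (s.length + r.length) = s.length := by omega
      rw [this, List.take_left, ← hr, List.append_assoc]
  have hbadcard : (E.filter (fun l => ¬ SqFree l)).card ≤ ∑ i ∈ Finset.range (n+1), (SF i).card := by
    refine (Finset.card_le_card hbad).trans (Finset.card_biUnion_le.trans ?_)
    exact Finset.sum_le_sum (fun i _ => Finset.card_image_le)
  have : SF (n+1) = E.filter (fun l => SqFree l) := by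
    rw [hE, SF]
  rw [this]
  omega

theorem sum_card_SF (n : ℕ) :
    ∑ i ∈ Finset.range (n+1), (SF i).card ≤ 2 * (SF n).card ∧ 2 ^ n ≤ (SF n).card := by
  induction n with
  | zero => simp [SF]
  | succ n ih =>
    have h := card_SF_succ n
    rw [Finset.sum_range_succ]
    refine ⟨by omega, ?_⟩
    rw [pow_succ]
    omega

theorem exists_words (k m : ℕ) (hk : k ≤ 2 ^ m) :
    ∃ φ : Fin k → ℕ → Fin 4,
      (∀ i j, (∀ q, 1 ≤ q → q ≤ m → φ i q = φ j q) → i = j) ∧
      (∀ i b t, 1 ≤ b → 1 ≤ t → b + 2 * t ≤ m + 1 → ¬ ∀ r < t, φ i (b + r) = φ i (b + r + t)) := by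
  classical
  have hcard : k ≤ (SF m).card := hk.trans (sum_card_SF m).2
  obtain ⟨e⟩ : Nonempty (Fin k ↪ (SF m)) := by
    apply Function.Embedding.nonempty_of_card_le
    simpa using hcard
  refine ⟨fun i q => ((e i : List (Fin 4))).getD (q-1) 0, ?_, ?_⟩
  · intro i j hij
    apply e.injective
    apply Subtype.ext
    have hi := (mem_SF m _).1 (e i).2
    have hj := (mem_SF m _).1 (e j).2
    apply List.ext_getElem
    · rw [hi.1, hj.1]
    · intro q h1 h2
      have := hij (q+1) (by omega) (by omega)
      simp only [Nat.add_sub_cancel] at this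
      rwa [List.getD_eq_getElem _ _ h1, List.getD_eq_getElem _ _ h2] at this
  · intro i b t hb ht hbt hsq
    have hi := (mem_SF m _).1 (e i).2
    set w : List (Fin 4) := (e i : List (Fin 4)) with hw
    apply hi.2 ((w.drop (b-1)).take t)
    · intro h
      have := congrArg List.length h
      simp only [List.length_take, List.length_drop, List.length_nil] at this
      omega
    · have h1 : (w.drop (b-1)).take t = (w.drop (b-1+t)).take t := by
        apply List.ext_getElem
        · simp only [List.length_take, List.length_drop]; omega
        · intro r hr1 hr2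
          simp only [List.getElem_take, List.getElem_drop]
          have hr : r < t := by
            simp only [List.length_take, List.length_drop] at hr1; omega
          have this : w.getD (b + r - 1) 0 = w.getD (b + r + t - 1) 0 := hsq r hr
          rw [List.getD_eq_getElem _ _ (by omega), List.getD_eq_getElem _ _ (by omega)] at this
          convert this using 2 <;> omega
      have h2 : w.drop (b-1) = (w.drop (b-1)).take t ++ w.drop (b-1+t) := by
        conv_lhs => rw [← List.take_append_drop t (w.drop (b-1))]
        rw [List.drop_drop]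
      have h3 : w.drop (b-1+t) = (w.drop (b-1+t)).take t ++ w.drop (b-1+t+t) := by
        conv_lhs => rw [← List.take_append_drop t (w.drop (b-1+t))]
        rw [List.drop_drop]
      refine ⟨w.take (b-1), w.drop (b-1+t+t), ?_⟩
      conv_rhs => rw [← List.take_append_drop (b-1) w, h2, h3, ← h1]
      simp only [List.append_assoc]

end Pool.Agent.Lib66
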