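import Mathlib
import Pool.Agent.Lib_helper66.SqFreeWords

set_option autoImplicit false

namespace Pool.Agent.Lib66

variable {n : ℕ}

/-- `D L v w q` is the `q`-th vertex on the subdivided edge from `v` to `w`, which has `L`
division vertices. -/
def D (L : ℕ) (v w : Fin n) (q : ℕ) : Fin n ⊕ (Fin n × Fin n × ℕ) :=
  if q = 0 then Sum.inl v else if q = L + 1 then Sum.inl w
  else if v < w then Sum.inr (v, w, q) else Sum.inr (w, v, L + 1 - q)

/-- The subdivided graph. -/
def H (G : SimpleGraph (Fin n)) (L : ℕ) : SimpleGraph (Fin n ⊕ (Fin n × Fin n × ℕ)) :=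
  SimpleGraph.fromRel (V := Fin n ⊕ (Fin n × Fin n × ℕ))
    (fun a b => ∃ u v : Fin n, u < v ∧ G.Adj u v ∧
      ((L = 0 ∧ a = Sum.inl u ∧ b = Sum.inl v) ∨
       (1 ≤ L ∧ a = Sum.inl u ∧ b = Sum.inr (u, v, 1)) ∨
       (∃ i : ℕ, 1 ≤ i ∧ i + 1 ≤ L ∧
          a = Sum.inr (u, v, i) ∧ b = Sum.inr (u, v, i + 1)) ∨
       (1 ≤ L ∧ a = Sum.inr (u, v, L) ∧ b = Sum.inl v)))

theorem D_zero (L : ℕ) (v w : Fin n) : D L v w 0 = Sum.inl v := by simp [D]

theorem D_last (L : ℕ) (v w : Fin n) : D L v w (L+1) = Sum.inl w := by simp [D]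

theorem D_symm (L : ℕ) (v w : Fin n) (hvw : v ≠ w) (q : ℕ) (hq : q ≤ L + 1) :
    D L w v q = D L v w (L + 1 - q) := by
  unfold D
  rcases lt_or_gt_of_ne hvw with h | h
  · have h' : ¬ w < v := not_lt.2 h.le
    by_cases h0 : q = 0
    · subst h0; simp
    · by_cases h1 : q = L + 1
      · subst h1; simp
      · rw [if_neg h0, if_neg h1, if_neg h', if_neg (by omega), if_neg (by omega), if_pos h]
  · have h' : ¬ v < w := not_lt.2 h.le
    by_cases h0 : q = 0
    · subst h0; simp
    · by_cases h1 : q = L + 1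
      · subst h1; simp
      · rw [if_neg h0, if_neg h1, if_pos h, if_neg (by omega), if_neg (by omega), if_neg h']
        congr 3
        omega

theorem adj_imp (G : SimpleGraph (Fin n)) (L : ℕ) (hL : 1 ≤ L)
    (x y : Fin n ⊕ (Fin n × Fin n × ℕ)) (h : (H G L).Adj x y) :
    ∃ v w q, G.Adj v w ∧ q ≤ L ∧ x = D L v w q ∧ y = D L v w (q+1) := by
  unfold H at h
  rw [SimpleGraph.fromRel_adj] at h
  obtain ⟨-, h⟩ := h
  have key : ∀ a b : Fin n ⊕ (Fin n × Fin n × ℕ), (∃ u v : Fin n, u < v ∧ G.Adj u v ∧
      ((L = 0 ∧ a = Sum.inl u ∧ b = Sum.inl v) ∨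
       (1 ≤ L ∧ a = Sum.inl u ∧ b = Sum.inr (u, v, 1)) ∨
       (∃ i : ℕ, 1 ≤ i ∧ i + 1 ≤ L ∧
          a = Sum.inr (u, v, i) ∧ b = Sum.inr (u, v, i + 1)) ∨
       (1 ≤ L ∧ a = Sum.inr (u, v, L) ∧ b = Sum.inl v))) →
       ∃ v w q, G.Adj v w ∧ q ≤ L ∧ a = D L v w q ∧ b = D L v w (q+1) := by
    rintro a b ⟨u, v, huv, hadj, h | h | h | h⟩
    · omega
    · refine ⟨u, v, 0, hadj, by omega, ?_, ?_⟩
      · rw [D_zero]; exact h.2.1
      · rw [h.2.2]; unfold D; rw [if_neg (by omega), if_neg (by omega), if_pos huv]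
    · obtain ⟨i, hi, hi1, ha, hb⟩ := h
      refine ⟨u, v, i, hadj, by omega, ?_, ?_⟩
      · rw [ha]; unfold D; rw [if_neg (by omega), if_neg (by omega), if_pos huv]
      · rw [hb]; unfold D; rw [if_neg (by omega), if_neg (by omega), if_pos huv]
    · refine ⟨u, v, L, hadj, le_rfl, ?_, ?_⟩
      · rw [h.2.1]; unfold D; rw [if_neg (by omega), if_neg (by omega), if_pos huv]
      · rw [D_last]; exact h.2.2
  rcases h with h | h
  · exact key x y h
  · obtain ⟨v, w, q, hadj, hq, hy, hx⟩ := key y x h
    refine ⟨w, v, L - q, hadj.symm, by omega, ?_, ?_⟩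
    · rw [hx, D_symm L v w hadj.ne _ (by omega)]
      congr 1
      omega
    · rw [hy, D_symm L v w hadj.ne _ (by omega)]
      congr 1
      omega

theorem D_det (L : ℕ) (v w v' w' : Fin n) (q q' : ℕ)
    (hq : 1 ≤ q) (hqL : q ≤ L) (hq' : q' ≤ L) (h : D L v w q = D L v' w' q') :
    (v' = v ∧ w' = w ∧ q' = q) ∨ (v' = w ∧ w' = v ∧ q' = L + 1 - q) := by
  unfold D at h
  rw [if_neg (by omega : ¬ q = 0), if_neg (by omega : ¬ q = L + 1)] at h
  by_cases h0 : q' = 0
  · rw [if_pos h0] at h
    split_ifs at h
  · rw [if_neg h0, if_neg (by omega : ¬ q' = L + 1)] at h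
    split_ifs at h with h1 h2 h2
    · simp only [Sum.inr.injEq, Prod.mk.injEq] at h
      left
      exact ⟨h.1.symm, h.2.1.symm, h.2.2.symm⟩
    · simp only [Sum.inr.injEq, Prod.mk.injEq] at h
      right
      exact ⟨h.2.1.symm, h.1.symm, by omega⟩
    · simp only [Sum.inr.injEq, Prod.mk.injEq] at h
      right
      exact ⟨h.1.symm, h.2.1.symm, by omega⟩
    · simp only [Sum.inr.injEq, Prod.mk.injEq] at h
      left
      exact ⟨h.2.1.symm, h.1.symm, by omega⟩

theorem D_eq_inl (L : ℕ) (v w u : Fin n) (q : ℕ) (hq : q ≤ L) (h : D L v w q = Sum.inl u) :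
    q = 0 ∧ v = u := by
  unfold D at h
  by_cases h0 : q = 0
  · rw [if_pos h0] at h
    exact ⟨h0, Sum.inl.inj h⟩
  · rw [if_neg h0, if_neg (by omega : ¬ q = L + 1)] at h
    split_ifs at h

/-- The vertex with global coordinate `y` along the sequence `g`. -/
def E (L : ℕ) (g : ℕ → Fin n) (y : ℕ) : Fin n ⊕ (Fin n × Fin n × ℕ) :=
  D L (g (y / (L+1))) (g (y / (L+1) + 1)) (y % (L+1))

theorem E_eq (L : ℕ) (g : ℕ → Fin n) (r q : ℕ) (hq : q ≤ L + 1) :
    E L g (r * (L+1) + q) = D L (g r) (g (r+1)) q := by
  rcases Nat.lt_or_ge q (L+1) with h | h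
  · have h1 : (r * (L+1) + q) / (L+1) = r := by
      rw [Nat.add_comm, Nat.add_mul_div_right _ _ (Nat.succ_pos L), Nat.div_eq_of_lt h]
      simp
    have h2 : (r * (L+1) + q) % (L+1) = q := by
      rw [Nat.add_comm, Nat.add_mul_mod_self_right, Nat.mod_eq_of_lt h]
    unfold E
    rw [h1, h2]
  · have hqe : q = L + 1 := le_antisymm hq h
    subst hqe
    have h1 : (r * (L+1) + (L+1)) / (L+1) = r + 1 := by
      rw [← Nat.succ_mul]
      exact Nat.mul_div_cancel _ (Nat.succ_pos L)
    have h2 : (r * (L+1) + (L+1)) % (L+1) = 0 := by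
      rw [← Nat.succ_mul]
      exact Nat.mul_mod_left _ _
    unfold E
    rw [h1, h2, D_zero, D_last]

/-- Structure of nonbacktracking sequences in the subdivided graph. -/
theorem structure_lemma (G : SimpleGraph (Fin n)) (L : ℕ) (hL : 1 ≤ L) (N : ℕ) (hN : 2 ≤ N)
    (x : ℕ → Fin n ⊕ (Fin n × Fin n × ℕ))
    (hadj : ∀ i, i + 1 < N → (H G L).Adj (x i) (x (i+1)))
    (hinj : ∀ i, i + 2 < N → x i ≠ x (i+2)) :
    ∃ o, o ≤ L ∧ ∃ g : ℕ → Fin n, (∀ i < N, x i = E L g (o + i)) ∧
      (∀ r, r * (L+1) < o + N - 1 → G.Adj (g r) (g (r+1))) := by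
  induction N, hN using Nat.le_induction with
  | base =>
    obtain ⟨v, w, q, hvw, hq, h0, h1⟩ := adj_imp G L hL _ _ (hadj 0 (by omega))
    refine ⟨q, hq, fun r => if r = 0 then v else w, ?_, ?_⟩
    · intro i hi
      have hi' : i = 0 ∨ i = 1 := by omega
      rcases hi' with rfl | rfl
      · have := E_eq L (fun r => if r = 0 then v else w) 0 q (by omega)
        simp only [Nat.zero_mul, Nat.zero_add, if_true] at this
        rw [h0, Nat.add_zero, this]
        simp
      · have := E_eq L (fun r => if r = 0 then v else w) 0 (q+1) (by omega)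
        simp only [Nat.zero_mul, Nat.zero_add, if_true] at this
        rw [h1, this]
        simp
    · intro r hr
      have : r = 0 := by
        rcases r with _ | r
        · rfl
        · exfalso
          have : (r+1) * (L+1) = r * (L+1) + (L+1) := by ring
          omega
      subst this
      simpa using hvw
  | succ N hN ih =>
    obtain ⟨o, ho, g, hx, hg⟩ := ih (fun i hi => hadj i (by omega)) (fun i hi => hinj i (by omega))
    -- coordinate of the last vertex
    obtain ⟨r, q, hq, hy⟩ : ∃ r q, q ≤ L ∧ o + (N - 1) = r * (L+1) + q := by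
      refine ⟨(o + (N-1)) / (L+1), (o + (N-1)) % (L+1), ?_, ?_⟩
      · have : (o + (N-1)) % (L+1) < L + 1 := Nat.mod_lt _ (Nat.succ_pos L)
        omega
      · rw [Nat.mul_comm]; exact (Nat.div_add_mod _ _).symm
    have hxl : x (N-1) = D L (g r) (g (r+1)) q := by
      rw [hx (N-1) (by omega), hy, E_eq L g r q (by omega)]
    have hadjl : (H G L).Adj (x (N-1)) (x N) := by
      have := hadj (N-1) (by omega)
      rwa [Nat.sub_add_cancel (by omega : 1 ≤ N)] at this
    obtain ⟨v, w, q', hvw, hq', h0, h1⟩ := adj_imp G L hL _ _ hadjl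
    rcases Nat.eq_zero_or_pos q with hq0 | hq0
    · subst hq0
      rw [D_zero] at hxl
      rw [hxl] at h0
      obtain ⟨hq'0, hv⟩ := D_eq_inl L v w (g r) q' hq' h0.symm
      subst hq'0
      subst hv
      refine ⟨o, ho, Function.update g (r+1) w, ?_, ?_⟩
      · have hsame : ∀ r' ≤ r, Function.update g (r+1) w r' = g r' := by
          intro r' hr'
          rw [Function.update_of_ne (by omega)]
        intro i hi
        rcases Nat.lt_or_ge i N with hiN | hiN
        · rw [hx i hiN]
          -- coordinate o + i ≤ r (L+1)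
          obtain ⟨r', q1, hq1, hy1⟩ : ∃ r' q1, q1 ≤ L ∧ o + i = r' * (L+1) + q1 := by
            refine ⟨(o + i) / (L+1), (o + i) % (L+1), ?_, ?_⟩
            · have : (o + i) % (L+1) < L + 1 := Nat.mod_lt _ (Nat.succ_pos L)
              omega
            · rw [Nat.mul_comm]; exact (Nat.div_add_mod _ _).symm
          rw [hy1, E_eq L _ r' q1 (by omega), E_eq L _ r' q1 (by omega)]
          have hle : r' * (L+1) + q1 ≤ r * (L+1) := by omega
          rcases Nat.lt_or_ge r' r with hr' | hr'
          · rw [hsame r' (by omega), hsame (r'+1) (by omega)]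
          · have : r * (L+1) ≤ r' * (L+1) := Nat.mul_le_mul_right _ hr'
            have hq10 : q1 = 0 := by omega
            have : r' = r := by
              subst hq10
              have h3 : r' * (L+1) = r * (L+1) := by omega
              exact Nat.eq_of_mul_eq_mul_right (Nat.succ_pos L) h3
            subst this
            subst hq10
            rw [D_zero, D_zero, hsame r' le_rfl]
        · have hiN' : i = N := by omega
          subst hiN'
          have : o + i = r * (L+1) + 1 := by omega
          rw [this, E_eq L _ r 1 (by omega), hsame r le_rfl, Function.update_self, h1]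
      · intro r' hr'
        have hle : r' * (L+1) ≤ r * (L+1) := by omega
        have hr'r : r' ≤ r := Nat.le_of_mul_le_mul_right hle (Nat.succ_pos L)
        rcases Nat.lt_or_ge r' r with h | h
        · rw [Function.update_of_ne (by omega), Function.update_of_ne (by omega)]
          apply hg
          have h4 : (r'+1) * (L+1) ≤ r * (L+1) := Nat.mul_le_mul_right _ h
          have h5 : (r'+1) * (L+1) = r' * (L+1) + (L+1) := by ring
          omega
        · have : r' = r := by omega
          subst this
          rw [Function.update_of_ne (by omega), Function.update_self]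
          exact hvw
    · have hgr : G.Adj (g r) (g (r+1)) := hg r (by omega)
      have hxl2 : x (N-2) = D L (g r) (g (r+1)) (q-1) := by
        rw [hx (N-2) (by omega), show o + (N-2) = r * (L+1) + (q-1) by omega,
          E_eq L g r (q-1) (by omega)]
      have hne : x (N-2) ≠ x N := by
        have := hinj (N-2) (by omega)
        rwa [Nat.sub_add_cancel (by omega : 2 ≤ N)] at this
      have hxN : x N = D L (g r) (g (r+1)) (q+1) := by
        rw [hxl] at h0
        rcases D_det L _ _ _ _ q q' hq0 hq hq' h0 with h | h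
        · rw [h1, h.1, h.2.1, h.2.2]
        · exfalso
          apply hne
          rw [h1, hxl2, h.1, h.2.1, h.2.2, D_symm L _ _ hgr.ne _ (by omega)]
          congr 1
          omega
      refine ⟨o, ho, g, ?_, ?_⟩
      · intro i hi
        rcases Nat.lt_or_ge i N with hiN | hiN
        · exact hx i hiN
        · have hiN' : i = N := by omega
          subst hiN'
          rw [hxN, show o + i = r * (L+1) + (q+1) by omega, E_eq L g r (q+1) (by omega)]
      · intro r' hr'
        apply hg
        have hle : r' * (L+1) < (r+1) * (L+1) := by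
          have : (r+1) * (L+1) = r * (L+1) + (L+1) := by ring
          omega
        have hr'r : r' < r + 1 := Nat.lt_of_mul_lt_mul_right hle
        have : r' * (L+1) ≤ r * (L+1) := Nat.mul_le_mul_right _ (by omega)
        omega

/-- A `G`-path given by a sequence, as a walk. -/
theorem exists_walk (G : SimpleGraph (Fin n)) (g : ℕ → Fin n) (a M : ℕ)
    (h : ∀ r < M, G.Adj (g (a + r)) (g (a + r + 1))) :
    ∃ p : G.Walk (g a) (g (a + M)), p.support = (List.range (M+1)).map (fun r => g (a + r)) := by
  induction M with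
  | zero => exact ⟨SimpleGraph.Walk.nil, by simp⟩
  | succ M ih =>
    obtain ⟨p, hp⟩ := ih (fun r hr => h r (by omega))
    refine ⟨p.concat (h M (by omega)), ?_⟩
    rw [SimpleGraph.Walk.support_concat, hp, List.range_succ (n := M+1), List.map_append]
    simp

/-- No sequence of distinct consecutively adjacent vertices is coloured by a square. -/
theorem no_repetition {k : ℕ} (G : SimpleGraph (Fin n)) (c : Fin n → Fin k)
    (hc : ∀ (x y : Fin n) (p : G.Walk x y), p.IsPath →
          ∀ s : List (Fin k), s ≠ [] → p.support.map c ≠ s ++ s)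
    (g : ℕ → Fin n) (a M : ℕ) (hM : 1 ≤ M)
    (hadj : ∀ r, r + 1 < 2 * M → G.Adj (g (a + r)) (g (a + r + 1)))
    (hinj : ∀ r r', r < 2 * M → r' < 2 * M → g (a + r) = g (a + r') → r = r')
    (hrep : ∀ r < M, c (g (a + r)) = c (g (a + r + M))) : False := by
  obtain ⟨p, hp⟩ := exists_walk G g a (2 * M - 1) (fun r hr => hadj r (by omega))
  have hM2 : 2 * M - 1 + 1 = M + M := by omega
  rw [hM2] at hp
  have hpath : p.IsPath := by
    rw [SimpleGraph.Walk.isPath_def, hp]
    apply List.Nodup.map_on
    · intro r hr r' hr' hrr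
      rw [List.mem_range] at hr hr'
      exact hinj r r' (by omega) (by omega) hrr
    · exact List.nodup_range
  apply hc _ _ p hpath ((List.range M).map (fun r => c (g (a + r))))
  · intro h
    have := congrArg List.length h
    simp only [List.length_map, List.length_range, List.length_nil] at this
    omega
  · rw [hp, List.range_add, List.map_append, List.map_append, List.map_map, List.map_map,
      List.map_map]
    congr 1
    apply List.map_congr_left
    intro r hr
    rw [List.mem_range] at hr
    simp only [Function.comp]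
    rw [hrep r hr]
    congr 2
    omega

/-- The colour read at distance `q` when walking from a vertex of colour `i` to one of colour `j`. -/
def kap {k : ℕ} (m : ℕ) (φ : Fin k → ℕ → Fin 4) (i j : Fin k) (q : ℕ) : Fin 6 :=
  if q = 0 ∨ q = 2 * m + 2 then 0
  else if q = m + 1 then 1
  else if q ≤ m then (φ i q).natAdd 2
  else (φ j (2 * m + 2 - q)).natAdd 2

theorem kap_symm {k : ℕ} (m : ℕ) (φ : Fin k → ℕ → Fin 4) (i j : Fin k) (q : ℕ)
    (hq : q ≤ 2 * m + 2) : kap m φ j i (2 * m + 2 - q) = kap m φ i j q := by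
  unfold kap
  by_cases h0 : q = 0 ∨ q = 2 * m + 2
  · rw [if_pos h0, if_pos (by omega)]
  · rw [if_neg h0, if_neg (by omega)]
    by_cases h1 : q = m + 1
    · rw [if_pos h1, if_pos (by omega)]
    · rw [if_neg h1, if_neg (by omega)]
      by_cases h2 : q ≤ m
      · rw [if_pos h2, if_neg (by omega)]
        congr 2
        omega
      · rw [if_neg h2, if_pos (by omega)]

theorem natAdd_ne_zero (a : Fin 4) : (a.natAdd 2 : Fin 6) ≠ 0 := by
  intro h
  have := congrArg Fin.val h
  simp at this

theorem natAdd_ne_one (a : Fin 4) : (a.natAdd 2 : Fin 6) ≠ 1 := by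
  intro h
  have := congrArg Fin.val h
  simp only [Fin.val_natAdd] at this
  have h1 : ((1 : Fin 6) : ℕ) = 1 := rfl
  rw [h1] at this
  omega

theorem kap_eq_zero {k : ℕ} (m : ℕ) (φ : Fin k → ℕ → Fin 4) (i j : Fin k) (q : ℕ) :
    kap m φ i j q = 0 ↔ (q = 0 ∨ q = 2 * m + 2) := by
  unfold kap
  by_cases h0 : q = 0 ∨ q = 2 * m + 2
  · rw [if_pos h0]; simp [h0]
  · rw [if_neg h0]
    constructor
    · intro h
      exfalso
      split_ifs at h with h1 h2
      · exact absurd h (by decide)
      · exact natAdd_ne_zero _ h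
      · exact natAdd_ne_zero _ h
    · intro h; exact absurd h h0

theorem kap_eq_one {k : ℕ} (m : ℕ) (φ : Fin k → ℕ → Fin 4) (i j : Fin k) (q : ℕ) :
    kap m φ i j q = 1 ↔ q = m + 1 := by
  unfold kap
  constructor
  · intro h
    split_ifs at h with h0 h1 h2
    · exact absurd h (by decide)
    · exact h1
    · exact absurd h (natAdd_ne_one _)
    · exact absurd h (natAdd_ne_one _)
  · intro h
    rw [if_neg (by omega), if_pos h]

theorem kap_low {k : ℕ} (m : ℕ) (φ : Fin k → ℕ → Fin 4) (i j : Fin k) (q : ℕ)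
    (h1 : 1 ≤ q) (h2 : q ≤ m) : kap m φ i j q = (φ i q).natAdd 2 := by
  unfold kap
  rw [if_neg (by omega), if_neg (by omega), if_pos h2]

theorem kap_high {k : ℕ} (m : ℕ) (φ : Fin k → ℕ → Fin 4) (i j : Fin k) (q : ℕ)
    (h1 : 1 ≤ q) (h2 : q ≤ m) : kap m φ i j (2 * m + 2 - q) = (φ j q).natAdd 2 := by
  rw [kap_symm m φ j i q (by omega), kap_low m φ j i q h1 h2]

/-- The colouring of the subdivision. -/
def col {k : ℕ} (m : ℕ) (φ : Fin k → ℕ → Fin 4) (c : Fin n → Fin k) :
    Fin n ⊕ (Fin n × Fin n × ℕ) → Fin 6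
  | Sum.inl _ => 0
  | Sum.inr (u, v, q) => kap m φ (c u) (c v) q

theorem col_D {k : ℕ} (m : ℕ) (φ : Fin k → ℕ → Fin 4) (c : Fin n → Fin k) (v w : Fin n)
    (q : ℕ) (hq : q ≤ 2 * m + 2) :
    col m φ c (D (2 * m + 1) v w q) = kap m φ (c v) (c w) q := by
  unfold D
  by_cases h0 : q = 0
  · rw [if_pos h0]
    exact ((kap_eq_zero m φ _ _ q).2 (Or.inl h0)).symm
  · rw [if_neg h0]
    by_cases h1 : q = 2 * m + 1 + 1
    · rw [if_pos h1]
      exact ((kap_eq_zero m φ _ _ q).2 (Or.inr h1)).symm
    · rw [if_neg h1]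
      split_ifs with h2
      · rfl
      · show kap m φ (c w) (c v) (2 * m + 2 - q) = _
        exact kap_symm m φ _ _ q hq

theorem col_E {k : ℕ} (m : ℕ) (φ : Fin k → ℕ → Fin 4) (c : Fin n → Fin k) (g : ℕ → Fin n)
    (r q : ℕ) (hq : q ≤ 2 * m + 2) :
    col m φ c (E (2 * m + 1) g (r * (2 * m + 2) + q)) = kap m φ (c (g r)) (c (g (r+1))) q := by
  rw [show 2 * m + 2 = 2 * m + 1 + 1 from rfl, E_eq (2 * m + 1) g r q hq,
    col_D m φ c _ _ q hq]

theorem natAdd_inj {a b : Fin 4} (h : (a.natAdd 2 : Fin 6) = b.natAdd 2) : a = b := by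
  have := congrArg Fin.val h
  simp only [Fin.val_natAdd] at this
  exact Fin.ext (by omega)

/-- The main theorem: if `G` is nonrepetitively `k`-colourable and `k ≤ 2 ^ m`, then the
subdivision of `G` with exactly `2 m + 1` division vertices per edge is nonrepetitively
`6`-colourable. -/
theorem main {k : ℕ} (m : ℕ) (hk : k ≤ 2 ^ m) (G : SimpleGraph (Fin n)) (c : Fin n → Fin k)
    (hc : ∀ (x y : Fin n) (p : G.Walk x y), p.IsPath →
          ∀ s : List (Fin k), s ≠ [] → p.support.map c ≠ s ++ s) :
    ∃ c' : Fin n ⊕ (Fin n × Fin n × ℕ) → Fin 6,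
      ∀ (x y : Fin n ⊕ (Fin n × Fin n × ℕ)) (p : (H G (2 * m + 1)).Walk x y), p.IsPath →
        ∀ s : List (Fin 6), s ≠ [] → p.support.map c' ≠ s ++ s := by
  obtain ⟨φ, hφinj, hφsf⟩ := exists_words k m hk
  refine ⟨col m φ c, ?_⟩
  intro x y p hp s hs hsq
  set t := s.length with ht
  have ht1 : 1 ≤ t := by
    rcases s with _ | ⟨b, s⟩
    · exact absurd rfl hs
    · simp [ht]
  have hlen : p.length + 1 = 2 * t := by
    have := congrArg List.length hsq
    rw [List.length_map, SimpleGraph.Walk.length_support, List.length_append] at this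
    omega
  -- colours along the path
  have hcol : ∀ i < t, col m φ c (p.getVert i) = col m φ c (p.getVert (i + t)) := by
    intro i hi
    have h1 : (p.support.map (col m φ c))[i]'(by
        rw [List.length_map, SimpleGraph.Walk.length_support]; omega) = s[i] := by
      simp only [hsq]
      rw [List.getElem_append_left (by omega)]
    have h2 : (p.support.map (col m φ c))[i+t]'(by
        rw [List.length_map, SimpleGraph.Walk.length_support]; omega) = s[i] := by
      simp only [hsq]
      rw [List.getElem_append_right (by omega)]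
      congr 1
      omega
    rw [← h2] at h1
    rwa [List.getElem_map, List.getElem_map, SimpleGraph.Walk.support_getElem_eq_getVert,
      SimpleGraph.Walk.support_getElem_eq_getVert] at h1
  have hinj : ∀ i j, i < 2 * t → j < 2 * t → p.getVert i = p.getVert j → i = j := by
    intro i j hi hj hij
    exact hp.getVert_injOn (by simp only [Set.mem_ofPred_eq]; omega)
      (by simp only [Set.mem_ofPred_eq]; omega) hij
  -- structure
  obtain ⟨o, ho, g, hx, hg⟩ := structure_lemma G (2 * m + 1) (by omega) (2 * t) (by omega)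
    (fun i => p.getVert i) (fun i hi => p.adj_getVert_succ (by omega))
    (fun i hi h => by have := hinj i (i+2) (by omega) (by omega) h; omega)
  have hcol' : ∀ z, o ≤ z → z < o + t →
      col m φ c (E (2 * m + 1) g z) = col m φ c (E (2 * m + 1) g (z + t)) := by
    intro z hz1 hz2
    have := hcol (z - o) (by omega)
    have e1 := hx (z - o) (by omega)
    have e2 := hx (z - o + t) (by omega)
    rw [e1, e2] at this
    rwa [show o + (z - o) = z by omega, show o + (z - o + t) = z + t by omega] at this
  have hz0 : ∀ z, col m φ c (E (2 * m + 1) g z) = 0 ↔ z % (2 * m + 2) = 0 := by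
    intro z
    have hlt : z % (2 * m + 2) < 2 * m + 2 := Nat.mod_lt _ (by omega)
    have hzz : z = (z / (2 * m + 2)) * (2 * m + 2) + z % (2 * m + 2) := by
      rw [Nat.mul_comm]; exact (Nat.div_add_mod _ _).symm
    conv_lhs => rw [hzz]
    rw [col_E m φ c g _ _ hlt.le, kap_eq_zero]
    omega
  by_cases hex : ∃ z, o ≤ z ∧ z < o + 2 * t ∧ z % (2 * m + 2) = 0
  · -- `t` is a multiple of `2 m + 2`
    have hdvd : (2 * m + 2) ∣ t := by
      obtain ⟨z, hz1, hz2, hz3⟩ := hex
      rcases Nat.lt_or_ge z (o + t) with h | h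
      · have h1 := (hz0 z).2 hz3
        rw [hcol' z hz1 h, hz0] at h1
        have h2 := Nat.dvd_of_mod_eq_zero h1
        have h3 := Nat.dvd_of_mod_eq_zero hz3
        exact (Nat.dvd_add_right h3).1 h2
      · have h1 := (hz0 z).2 hz3
        have h4 := hcol' (z - t) (by omega) (by omega)
        rw [Nat.sub_add_cancel (by omega : t ≤ z), h1, hz0] at h4
        have h2 := Nat.dvd_of_mod_eq_zero h4
        have h3 := Nat.dvd_of_mod_eq_zero hz3
        have h5 : z = (z - t) + t := by omega
        rw [h5] at h3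
        exact (Nat.dvd_add_right h2).1 h3
    obtain ⟨M, hM⟩ := hdvd
    have hM' : t = M * (2 * m + 2) := by rw [hM, Nat.mul_comm]
    have hM1 : 1 ≤ M := by
      rcases Nat.eq_zero_or_pos M with h | h
      · subst h; simp at hM; omega
      · exact h
    -- plus side
    have hplus : ∀ r, (∀ q, 1 ≤ q → q ≤ m → o ≤ r * (2 * m + 2) + q ∧
        r * (2 * m + 2) + q < o + t) → c (g r) = c (g (r + M)) := by
      intro r hr
      apply hφinj
      intro q hq1 hq2
      have h1 := hcol' (r * (2 * m + 2) + q) (hr q hq1 hq2).1 (hr q hq1 hq2).2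
      rw [show r * (2 * m + 2) + q + t = (r + M) * (2 * m + 2) + q by rw [hM']; ring,
        col_E m φ c g _ _ (by omega), col_E m φ c g _ _ (by omega), kap_low m φ _ _ q hq1 hq2,
        kap_low m φ _ _ q hq1 hq2] at h1
      exact natAdd_inj h1
    -- minus side
    have hminus : ∀ r, (∀ q, 1 ≤ q → q ≤ m → o ≤ r * (2 * m + 2) + (2 * m + 2 - q) ∧
        r * (2 * m + 2) + (2 * m + 2 - q) < o + t) → c (g (r+1)) = c (g (r + 1 + M)) := by
      intro r hr
      apply hφinj
      intro q hq1 hq2
      have h1 := hcol' (r * (2 * m + 2) + (2 * m + 2 - q)) (hr q hq1 hq2).1 (hr q hq1 hq2).2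
      rw [show r * (2 * m + 2) + (2 * m + 2 - q) + t = (r + M) * (2 * m + 2) + (2 * m + 2 - q) by
          rw [hM']; ring,
        col_E m φ c g _ _ (by omega), col_E m φ c g _ _ (by omega), kap_high m φ _ _ q hq1 hq2,
        kap_high m φ _ _ q hq1 hq2] at h1
      rw [show r + 1 + M = r + M + 1 by omega]
      exact natAdd_inj h1
    have hvert : ∀ r, o ≤ r * (2 * m + 2) → r * (2 * m + 2) < o + 2 * t →
        p.getVert (r * (2 * m + 2) - o) = Sum.inl (g r) := by
      intro r hr1 hr2
      have h1 := hx (r * (2 * m + 2) - o) (by omega)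
      rw [h1, show o + (r * (2 * m + 2) - o) = r * (2 * m + 1 + 1) + 0 by
        rw [Nat.add_sub_cancel' hr1]; rfl, E_eq _ _ _ _ (by omega), D_zero]
    rcases Nat.eq_zero_or_pos o with ho0 | ho0
    · -- vertices `g 0, ..., g (2 M - 1)`
      have hmul : ∀ r, r < 2 * M → r * (2 * m + 2) + (2 * m + 2) ≤ 2 * t := by
        intro r hr
        have h1 : (r + 1) * (2 * m + 2) ≤ (2 * M) * (2 * m + 2) := Nat.mul_le_mul_right _ hr
        have h2 : (r + 1) * (2 * m + 2) = r * (2 * m + 2) + (2 * m + 2) := by ring
        have h3 : (2 * M) * (2 * m + 2) = 2 * t := by rw [hM']; ring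
        omega
      apply no_repetition G c hc g 0 M hM1
      · intro r hr
        rw [Nat.zero_add]
        apply hg
        have := hmul r (by omega)
        rw [show 2 * m + 1 + 1 = 2 * m + 2 from rfl]
        omega
      · intro r r' hr hr' hrr
        rw [Nat.zero_add, Nat.zero_add] at hrr
        have h1 := hmul r hr
        have h2 := hmul r' hr'
        have e1 := hvert r (by omega) (by omega)
        have e2 := hvert r' (by omega) (by omega)
        rw [hrr, ← e2] at e1
        have h3 := hinj _ _ (by omega) (by omega) e1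
        have h4 : r * (2 * m + 2) = r' * (2 * m + 2) := by omega
        exact Nat.eq_of_mul_eq_mul_right (by omega) h4
      · intro r hr
        rw [Nat.zero_add]
        apply hplus
        intro q hq1 hq2
        have h1 : (r + 1) * (2 * m + 2) ≤ M * (2 * m + 2) := Nat.mul_le_mul_right _ hr
        have h2 : (r + 1) * (2 * m + 2) = r * (2 * m + 2) + (2 * m + 2) := by ring
        omega
    · -- vertices `g 1, ..., g (2 M)`
      have hmul : ∀ r, r < 2 * M → (r + 1) * (2 * m + 2) ≤ 2 * t := by
        intro r hr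
        have h1 : (r + 1) * (2 * m + 2) ≤ (2 * M) * (2 * m + 2) := Nat.mul_le_mul_right _ hr
        have h3 : (2 * M) * (2 * m + 2) = 2 * t := by rw [hM']; ring
        omega
      have hmul' : ∀ r, (r + 1) * (2 * m + 2) = r * (2 * m + 2) + (2 * m + 2) := by
        intro r; ring
      apply no_repetition G c hc g 1 M hM1
      · intro r hr
        apply hg
        have h1 := hmul (r+1) (by omega)
        have h2 := hmul' (r+1)
        rw [show 2 * m + 1 + 1 = 2 * m + 2 from rfl, Nat.add_comm 1 r]
        omega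
      · intro r r' hr hr' hrr
        rw [Nat.add_comm 1 r, Nat.add_comm 1 r'] at hrr
        have h1 := hmul r hr
        have h2 := hmul r' hr'
        have h1' := hmul' r
        have h2' := hmul' r'
        have e1 := hvert (r+1) (by omega) (by omega)
        have e2 := hvert (r'+1) (by omega) (by omega)
        rw [hrr, ← e2] at e1
        have h3 := hinj _ _ (by omega) (by omega) e1
        have h4 : (r+1) * (2 * m + 2) = (r'+1) * (2 * m + 2) := by omega
        have := Nat.eq_of_mul_eq_mul_right (by omega) h4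
        omega
      · intro r hr
        rw [Nat.add_comm 1 r]
        have h1 : (r + 1) * (2 * m + 2) ≤ M * (2 * m + 2) := Nat.mul_le_mul_right _ hr
        have h2 := hmul' r
        rcases Nat.lt_or_ge m o with h | h
        · apply hplus
          intro q hq1 hq2
          omega
        · apply hminus
          intro q hq1 hq2
          omega
  · -- the whole path lies inside one subdivided edge
    push Not at hex
    have ho1 : 1 ≤ o := by
      rcases Nat.eq_zero_or_pos o with h | h
      · exact absurd (by rw [h]; simp) (hex o le_rfl (by omega))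
      · exact h
    have hoN : o + 2 * t ≤ 2 * m + 2 := by
      by_contra hcon
      exact absurd (Nat.mod_self _) (hex (2 * m + 2) (by omega) (by omega))
    have hE : ∀ z, z ≤ 2 * m + 2 →
        col m φ c (E (2 * m + 1) g z) = kap m φ (c (g 0)) (c (g 1)) z := by
      intro z hz
      have := col_E m φ c g 0 z hz
      rwa [Nat.zero_mul, Nat.zero_add] at this
    have hk' : ∀ z, o ≤ z → z < o + t →
        kap m φ (c (g 0)) (c (g 1)) z = kap m φ (c (g 0)) (c (g 1)) (z + t) := by
      intro z hz1 hz2
      rw [← hE z (by omega), ← hE (z + t) (by omega)]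
      exact hcol' z hz1 hz2
    by_cases hmid : o ≤ m + 1 ∧ m + 1 < o + 2 * t
    · rcases Nat.lt_or_ge (m+1) (o + t) with h | h
      · have h1 := hk' (m+1) hmid.1 h
        rw [(kap_eq_one m φ _ _ _).2 rfl] at h1
        have := (kap_eq_one m φ _ _ _).1 h1.symm
        omega
      · have h1 := hk' (m + 1 - t) (by omega) (by omega)
        rw [Nat.sub_add_cancel (by omega : t ≤ m + 1), (kap_eq_one m φ _ _ (m+1)).2 rfl] at h1
        have := (kap_eq_one m φ _ _ _).1 h1
        omega
    · rcases Nat.lt_or_ge (m+1) o with h | h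
      · -- all on the high side
        apply hφsf (c (g 1)) (2 * m + 2 - (o + 2 * t - 1)) t (by omega) ht1 (by omega)
        intro r hr
        have h1 := hk' (o + t - 1 - r) (by omega) (by omega)
        rw [show o + t - 1 - r = 2 * m + 2 - (2 * m + 2 - (o + 2 * t - 1) + r + t) by omega,
          show 2 * m + 2 - (2 * m + 2 - (o + 2 * t - 1) + r + t) + t =
            2 * m + 2 - (2 * m + 2 - (o + 2 * t - 1) + r) by omega,
          kap_high m φ _ _ _ (by omega) (by omega), kap_high m φ _ _ _ (by omega) (by omega)] at h1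
        exact (natAdd_inj h1).symm
      · -- all on the low side
        apply hφsf (c (g 0)) o t ho1 ht1 (by omega)
        intro r hr
        have h1 := hk' (o + r) (by omega) (by omega)
        rw [kap_low m φ _ _ _ (by omega) (by omega), kap_low m φ _ _ _ (by omega) (by omega)] at h1
        exact natAdd_inj h1

end Pool.Agent.Lib66
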