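import Mathlib

set_option autoImplicit false

namespace Pool.Agent.Lib66.TreeNum

open Finset

/-- `u_j = j^j / j!` -/
noncomputable def uu (j : ℕ) : ℝ := (j : ℝ) ^ j / (j.factorial : ℝ)

/-- `v_k = (k+1)^k / (k+1)!` -/
noncomputable def vv (k : ℕ) : ℝ := ((k : ℝ) + 1) ^ k / ((k+1).factorial : ℝ)

theorem uu_pos (j : ℕ) : 0 < uu j := by
  unfold uu
  have : (0:ℝ) < (j.factorial : ℝ) := by exact_mod_cast Nat.factorial_pos j
  rcases Nat.eq_zero_or_pos j with h | h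
  · subst h; simp
  · have : (0:ℝ) < (j:ℝ) := by exact_mod_cast h
    positivity

theorem vv_pos (k : ℕ) : 0 < vv k := by
  unfold vv
  have : (0:ℝ) < ((k+1).factorial : ℝ) := by exact_mod_cast Nat.factorial_pos _
  positivity

theorem diff_zero (N : ℕ) (hN : 1 ≤ N) :
    ∑ k ∈ range (N+1), (-1:ℝ) ^ (N - k) * (N.choose k : ℝ) * ((k:ℝ) + 1) ^ (N-1) = 0 := by
  have h1 := fwdDiff_iter_pow_eq_zero_of_lt (R := ℝ) (j := N-1) (n := N) (by omega)
  have h2 := fwdDiff_iter_eq_sum_shift (1:ℝ) (fun x : ℝ => x ^ (N-1)) N 1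
  rw [h1] at h2
  rw [Pi.zero_apply] at h2
  rw [h2]
  apply Finset.sum_congr rfl
  intro k _
  simp only [zsmul_eq_mul, nsmul_eq_mul, mul_one]
  push_cast
  rw [add_comm (1:ℝ) (k:ℝ)]

/-- Abel's identity (a special case). -/
theorem abel (n : ℕ) :
    ∑ k ∈ range (n+1), (n.choose k : ℝ) * (((k:ℝ) + 1) ^ k / ((k:ℝ) + 1)) *
      ((n:ℝ) + 1 - k) ^ (n - k) = ((n:ℝ) + 2) ^ n := by
  have h1 : ∀ k ∈ range (n+1), (n.choose k : ℝ) * (((k:ℝ) + 1) ^ k / ((k:ℝ) + 1)) *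
      ((n:ℝ) + 1 - k) ^ (n - k) = ∑ i ∈ range (n - k + 1),
        ((n:ℝ) + 2) ^ i * (n.choose i : ℝ) * ((-1:ℝ) ^ (n - i - k) * ((n-i).choose k : ℝ) *
          (((k:ℝ) + 1) ^ (n-i) / ((k:ℝ) + 1))) := by
    intro k hk
    rw [mem_range] at hk
    have e1 : ((n:ℝ) + 1 - k) = ((n:ℝ) + 2) + (-((k:ℝ)+1)) := by ring
    rw [e1, add_pow ((n:ℝ) + 2) (-((k:ℝ)+1)) (n - k), Finset.mul_sum]
    apply Finset.sum_congr rfl
    intro i hi
    rw [mem_range] at hi
    have hch : (n.choose k : ℝ) * ((n-k).choose i : ℝ) = (n.choose i : ℝ) * ((n-i).choose k : ℝ) := by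
      have a1 := Nat.choose_mul (n := n) (k := k + i) (s := k) (by omega)
      have a2 := Nat.choose_mul (n := n) (k := k + i) (s := i) (by omega)
      have a3 : (k+i).choose k = (k+i).choose i := by
        rw [Nat.choose_symm_add]
      rw [Nat.add_sub_cancel_left] at a1
      rw [Nat.add_sub_cancel] at a2
      rw [a3] at a1
      exact_mod_cast a1.symm.trans a2
    have hpow : ((k:ℝ) + 1) ^ k * (-((k:ℝ)+1)) ^ (n - k - i) =
        (-1:ℝ) ^ (n - i - k) * ((k:ℝ) + 1) ^ (n-i) := by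
      rw [neg_pow, show n - k - i = n - i - k by omega, show n - i = k + (n - i - k) by omega,
        pow_add]
      have : k + (n - i - k) - k = n - i - k := by omega
      rw [this]
      ring
    calc (n.choose k : ℝ) * (((k:ℝ) + 1) ^ k / ((k:ℝ) + 1)) *
          (((n:ℝ) + 2) ^ i * (-((k:ℝ)+1)) ^ (n - k - i) * ((n-k).choose i : ℝ))
        = ((n:ℝ) + 2) ^ i * ((n.choose k : ℝ) * ((n-k).choose i : ℝ)) *
            ((((k:ℝ) + 1) ^ k * (-((k:ℝ)+1)) ^ (n - k - i)) / ((k:ℝ) + 1)) := by ring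
      _ = _ := by rw [hch, hpow]; ring
  rw [Finset.sum_congr rfl h1]
  -- swap the sums
  have h2 : ∑ k ∈ range (n+1), ∑ i ∈ range (n - k + 1),
        ((n:ℝ) + 2) ^ i * (n.choose i : ℝ) * ((-1:ℝ) ^ (n - i - k) * ((n-i).choose k : ℝ) *
          (((k:ℝ) + 1) ^ (n-i) / ((k:ℝ) + 1))) =
      ∑ i ∈ range (n+1), ∑ k ∈ range (n - i + 1),
        ((n:ℝ) + 2) ^ i * (n.choose i : ℝ) * ((-1:ℝ) ^ (n - i - k) * ((n-i).choose k : ℝ) *
          (((k:ℝ) + 1) ^ (n-i) / ((k:ℝ) + 1))) := by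
    apply Finset.sum_comm'
    intro x y
    simp only [mem_range]
    omega
  rw [h2, Finset.sum_range_succ]
  have h3 : ∑ i ∈ range n, ∑ k ∈ range (n - i + 1),
        ((n:ℝ) + 2) ^ i * (n.choose i : ℝ) * ((-1:ℝ) ^ (n - i - k) * ((n-i).choose k : ℝ) *
          (((k:ℝ) + 1) ^ (n-i) / ((k:ℝ) + 1))) = 0 := by
    apply Finset.sum_eq_zero
    intro i hi
    rw [mem_range] at hi
    rw [← Finset.mul_sum]
    have := diff_zero (n - i) (by omega)
    have h4 : ∑ k ∈ range (n - i + 1), ((-1:ℝ) ^ (n - i - k) * ((n-i).choose k : ℝ) *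
          (((k:ℝ) + 1) ^ (n-i) / ((k:ℝ) + 1))) = 0 := by
      rw [← this]
      apply Finset.sum_congr rfl
      intro k _
      congr 1
      have hk : (k:ℝ) + 1 ≠ 0 := by positivity
      rw [div_eq_iff hk, ← pow_succ]
      congr 1
      omega
    rw [h4, mul_zero]
  rw [h3, zero_add]
  simp

theorem abel_uv (m : ℕ) (hm : 1 ≤ m) :
    ∑ j ∈ Ico 1 (m+1), uu j * vv (m - j) = m * vv m := by
  have h := abel (m-1)
  have h1 : ∑ j ∈ Ico 1 (m+1), uu j * vv (m - j) = ∑ k ∈ range (m - 1 + 1), uu (m - k) * vv k := by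
    rw [Nat.sub_add_cancel hm]
    have := Finset.sum_range_reflect (fun k => uu (m - k) * vv k) m
    rw [← this, Finset.sum_Ico_eq_sum_range]
    apply Finset.sum_congr (by simp)
    intro j hj
    rw [mem_range] at hj
    congr 2 <;> omega
  have h2 : ∀ k ∈ range (m - 1 + 1), uu (m - k) * vv k =
      (((m-1).choose k : ℝ) * (((k:ℝ) + 1) ^ k / ((k:ℝ) + 1)) *
      (((m-1 : ℕ):ℝ) + 1 - k) ^ (m - 1 - k)) * (1 / ((m-1).factorial : ℝ)) := by
    intro k hk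
    rw [mem_range] at hk
    unfold uu vv
    obtain ⟨a, rfl⟩ : ∃ a, m = k + a + 1 := ⟨m - k - 1, by omega⟩
    have e1 : k + a + 1 - k = a + 1 := by omega
    have e2 : k + a + 1 - 1 = k + a := by omega
    have e3 : k + a - k = a := by omega
    rw [e1, e2, e3, Nat.factorial_succ, Nat.factorial_succ, Nat.choose_eq_factorial_div_factorial
      (by omega : k ≤ k + a), e3, Nat.cast_div
      (by simpa [e3] using Nat.factorial_mul_factorial_dvd_factorial (by omega : k ≤ k + a))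
      (by positivity)]
    have hk0 : (k.factorial : ℝ) ≠ 0 := by positivity
    have ha0 : (a.factorial : ℝ) ≠ 0 := by positivity
    have hka0 : ((k+a).factorial : ℝ) ≠ 0 := by positivity
    have hk1 : (k:ℝ) + 1 ≠ 0 := by positivity
    have ha1 : (a:ℝ) + 1 ≠ 0 := by positivity
    push_cast
    rw [show (k:ℝ) + a + 1 - k = a + 1 by ring, pow_succ]
    field_simp
  rw [h1, Finset.sum_congr rfl h2, ← Finset.sum_mul, h]
  unfold vv
  obtain ⟨a, rfl⟩ : ∃ a, m = a + 1 := ⟨m - 1, by omega⟩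
  rw [Nat.add_sub_cancel, Nat.factorial_succ, Nat.factorial_succ]
  have ha0 : (a.factorial : ℝ) ≠ 0 := by positivity
  have ha1 : (a:ℝ) + 1 ≠ 0 := by positivity
  have ha2 : (a:ℝ) + 2 ≠ 0 := by positivity
  push_cast
  rw [show (a:ℝ) + 1 + 1 = a + 2 by ring, pow_succ]
  field_simp

/-- `e_j = (1 + 1/j)^j` is increasing. -/
theorem e_step (j : ℕ) (hj : 1 ≤ j) :
    (((j:ℝ) + 1) / j) ^ j ≤ (((j:ℝ) + 2) / (j + 1)) ^ (j+1) := by
  have hj0 : (0:ℝ) < (j:ℝ) := by exact_mod_cast hj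
  have hj1 : (0:ℝ) < (j:ℝ) + 1 := by positivity
  -- Bernoulli : (1 - 1/(j+1)^2)^(j+1) ≥ 1 - 1/(j+1)
  have hb : 1 - 1 / ((j:ℝ) + 1) ≤ (1 - 1 / ((j:ℝ) + 1) ^ 2) ^ (j+1) := by
    have h1 : (-2:ℝ) ≤ -(1 / ((j:ℝ) + 1) ^ 2) := by
      have : 1 / ((j:ℝ) + 1) ^ 2 ≤ 1 := by
        rw [div_le_one (by positivity)]
        nlinarith
      linarith
    have h2 := one_add_mul_le_pow h1 (j+1)
    have h3 : 1 + ((j+1 : ℕ):ℝ) * (-(1 / ((j:ℝ) + 1) ^ 2)) = 1 - 1 / ((j:ℝ) + 1) := by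
      push_cast
      field_simp
      ring
    rw [h3] at h2
    calc _ ≤ _ := h2
      _ = _ := by rw [← sub_eq_add_neg]
  have h4 : ((j:ℝ) + 2) / (j + 1) = (((j:ℝ) + 1) / j) * (1 - 1 / ((j:ℝ) + 1) ^ 2) := by
    field_simp
    ring
  rw [h4, mul_pow, pow_succ (((j:ℝ) + 1) / j) j, mul_assoc]
  have h5 : 1 ≤ ((j:ℝ) + 1) / j * (1 - 1 / ((j:ℝ) + 1) ^ 2) ^ (j+1) := by
    have h6 : 1 = ((j:ℝ) + 1) / j * (1 - 1 / ((j:ℝ) + 1)) := by
      field_simp
      ring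
    calc (1:ℝ) = ((j:ℝ) + 1) / j * (1 - 1 / ((j:ℝ) + 1)) := h6
      _ ≤ _ := mul_le_mul_of_nonneg_left hb (by positivity)
  calc (((j:ℝ) + 1) / j) ^ j = (((j:ℝ) + 1) / j) ^ j * 1 := (mul_one _).symm
    _ ≤ _ := mul_le_mul_of_nonneg_left h5 (by positivity)

theorem e_mono (i j : ℕ) (hi : 1 ≤ i) (hij : i ≤ j) :
    (((i:ℝ) + 1) / i) ^ i ≤ (((j:ℝ) + 1) / j) ^ j := by
  induction j, hij using Nat.le_induction with
  | base => exact le_rfl
  | succ j hij ih =>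
    refine ih.trans ?_
    have := e_step j (by omega)
    push_cast
    rwa [show (j:ℝ) + 1 + 1 = j + 2 by ring]

/-- `b_k = (1 + 1/(k+1))^k` is increasing. -/
theorem b_step (k : ℕ) :
    (((k:ℝ) + 2) / (k + 1)) ^ k ≤ (((k:ℝ) + 3) / (k + 2)) ^ (k+1) := by
  have hk : (0:ℝ) ≤ (k:ℝ) := Nat.cast_nonneg k
  have h1 := e_step (k+1) (by omega)
  push_cast at h1
  rw [show (k:ℝ) + 1 + 1 = k + 2 by ring, show (k:ℝ) + 1 + 2 = k + 3 by ring] at h1
  rw [pow_succ, pow_succ (((k:ℝ) + 3) / (k + 2)) (k+1)] at h1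
  have h2 : ((k:ℝ) + 3) / (k + 2) ≤ ((k:ℝ) + 2) / (k + 1) := by
    rw [div_le_div_iff₀ (by positivity) (by positivity)]
    nlinarith
  have h3 : (0:ℝ) < ((k:ℝ) + 2) / (k + 1) := by positivity
  have h4 : (0:ℝ) ≤ (((k:ℝ) + 3) / (k + 2)) ^ (k+1) := by positivity
  have h5 : (((k:ℝ) + 2) / (k + 1)) ^ k * (((k:ℝ) + 2) / (k + 1)) ≤
      (((k:ℝ) + 3) / (k + 2)) ^ (k+1) * (((k:ℝ) + 2) / (k + 1)) :=
    h1.trans (mul_le_mul_of_nonneg_left h2 h4)
  exact le_of_mul_le_mul_right h5 h3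

theorem b_mono (i j : ℕ) (hij : i ≤ j) :
    (((i:ℝ) + 2) / (i + 1)) ^ i ≤ (((j:ℝ) + 2) / (j + 1)) ^ j := by
  induction j, hij using Nat.le_induction with
  | base => exact le_rfl
  | succ j hij ih =>
    refine ih.trans ?_
    have := b_step j
    push_cast
    rwa [show (j:ℝ) + 1 + 1 = j + 2 by ring, show (j:ℝ) + 1 + 2 = j + 3 by ring]

theorem vv_ratio (k : ℕ) : vv (k+1) / vv k = (((k:ℝ) + 2) / (k + 1)) ^ k := by
  unfold vv
  rw [Nat.factorial_succ (k+1)]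
  have h1 : ((k+1).factorial : ℝ) ≠ 0 := by positivity
  have h2 : (k:ℝ) + 1 ≠ 0 := by positivity
  have h3 : (k:ℝ) + 2 ≠ 0 := by positivity
  push_cast
  rw [show (k:ℝ) + 1 + 1 = k + 2 by ring, div_pow, pow_succ]
  field_simp

theorem uu_ratio (j : ℕ) (hj : 1 ≤ j) : uu (j+1) / uu j = (((j:ℝ) + 1) / j) ^ j := by
  unfold uu
  rw [Nat.factorial_succ j]
  have h1 : (j.factorial : ℝ) ≠ 0 := by positivity
  have h2 : (j:ℝ) + 1 ≠ 0 := by positivity
  have h3 : (j:ℝ) ≠ 0 := by positivity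
  push_cast
  rw [div_pow, pow_succ]
  field_simp

/-- The growth factor. -/
noncomputable def kappa (m : ℕ) : ℝ := (((m:ℝ) + 1) / m) * (vv (m+1) / vv m)

theorem vv_ratio_le (m k : ℕ) (hm : 1 ≤ m) (hk : k ≤ m) : vv (k+1) / vv k ≤ kappa m := by
  have hm0 : (0:ℝ) < (m:ℝ) := by exact_mod_cast hm
  rw [kappa, vv_ratio, vv_ratio]
  have h1 := b_mono k m hk
  have h2 : (1:ℝ) ≤ ((m:ℝ) + 1) / m := by
    rw [le_div_iff₀ hm0]; linarith
  have h3 : (0:ℝ) ≤ (((m:ℝ) + 2) / (m + 1)) ^ m := by positivity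
  calc _ ≤ _ := h1
    _ = 1 * (((m:ℝ) + 2) / (m + 1)) ^ m := (one_mul _).symm
    _ ≤ _ := mul_le_mul_of_nonneg_right h2 h3

theorem uu_ratio_le (m j : ℕ) (hj : 1 ≤ j) (hjm : j ≤ m) : uu (j+1) / uu j ≤ kappa m := by
  have hm : 1 ≤ m := hj.trans hjm
  have hm0 : (0:ℝ) < (m:ℝ) := by exact_mod_cast hm
  rw [kappa, vv_ratio, uu_ratio j hj]
  refine (e_mono j m hj hjm).trans ?_
  obtain ⟨a, rfl⟩ : ∃ a, m = a + 1 := ⟨m - 1, by omega⟩
  have h1 := b_step a
  push_cast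
  rw [show (a:ℝ) + 1 + 1 = a + 2 by ring, show (a:ℝ) + 1 + 2 = a + 3 by ring, pow_succ, mul_comm]
  exact mul_le_mul_of_nonneg_left h1 (by positivity)

/-- The coupling weights. -/
theorem exists_theta (m : ℕ) (hm : 1 ≤ m) : ∃ θ : ℕ → ℝ,
    (∀ j, 1 ≤ j → j ≤ m + 1 → 0 ≤ θ j ∧ θ j ≤ 1) ∧ θ 1 = 0 ∧ θ (m+1) = 1 ∧
    ∀ j, 1 ≤ j → j ≤ m →
      θ (j+1) * (uu (j+1) / uu j) + (1 - θ j) * (vv (m+1-j) / vv (m-j)) = kappa m := by
  have hm0 : (0:ℝ) < (m:ℝ) := by exact_mod_cast hm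
  set Z : ℕ → ℝ := fun m => m * vv m with hZ
  have hZm : 0 < Z m := mul_pos hm0 (vv_pos m)
  have hZm1 : 0 < Z (m+1) := mul_pos (by positivity) (vv_pos (m+1))
  have hκ : Z (m+1) = kappa m * Z m := by
    simp only [hZ, kappa]
    have := (vv_pos m).ne'
    push_cast
    field_simp
  have hκpos : 0 < kappa m := by
    rw [kappa]
    have := vv_pos m
    have := vv_pos (m+1)
    positivity
  set p : ℕ → ℝ := fun i => uu i * vv (m - i) / Z m with hp
  set r : ℕ → ℝ := fun i => uu i * vv (m + 1 - i) / Z (m+1) with hr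
  have hrpos : ∀ i, 0 < r i := fun i => div_pos (mul_pos (uu_pos i) (vv_pos _)) hZm1
  have hrp : ∀ i, 1 ≤ i → i ≤ m → r i ≤ p i := by
    intro i hi him
    simp only [hp, hr]
    have h1 := vv_ratio_le m (m - i) hm (by omega)
    rw [show m - i + 1 = m + 1 - i by omega, div_le_iff₀ (vv_pos _)] at h1
    rw [div_le_div_iff₀ hZm1 hZm, hκ]
    calc uu i * vv (m+1-i) * Z m ≤ uu i * (kappa m * vv (m-i)) * Z m := by
          apply mul_le_mul_of_nonneg_right _ hZm.le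
          exact mul_le_mul_of_nonneg_left h1 (uu_pos i).le
      _ = _ := by ring
  have hrp' : ∀ i, 1 ≤ i → i ≤ m → r (i+1) ≤ p i := by
    intro i hi him
    simp only [hp, hr]
    have h1 := uu_ratio_le m i hi him
    rw [div_le_iff₀ (uu_pos _)] at h1
    rw [show m + 1 - (i+1) = m - i by omega, div_le_div_iff₀ hZm1 hZm, hκ]
    calc uu (i+1) * vv (m-i) * Z m ≤ (kappa m * uu i) * vv (m-i) * Z m := by
          apply mul_le_mul_of_nonneg_right _ hZm.le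
          exact mul_le_mul_of_nonneg_right h1 (vv_pos _).le
      _ = _ := by ring
  have hsp : ∑ i ∈ Ico 1 (m+1), p i = 1 := by
    simp only [hp]
    rw [← Finset.sum_div, abel_uv m hm, div_self hZm.ne']
  have hsr : ∑ i ∈ Ico 1 (m+1+1), r i = 1 := by
    simp only [hr]
    rw [← Finset.sum_div, abel_uv (m+1) (by omega), div_self hZm1.ne']
  refine ⟨fun j => (∑ i ∈ Ico 1 j, (p i - r i)) / r j, ?_, ?_, ?_, ?_⟩
  · intro j hj1 hjm
    constructor
    · apply div_nonneg _ (hrpos j).le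
      apply Finset.sum_nonneg
      intro i hi
      rw [mem_Ico] at hi
      linarith [hrp i hi.1 (by omega)]
    · rw [div_le_one (hrpos j), Finset.sum_sub_distrib]
      have h1 : ∑ i ∈ Ico 1 j, p i + ∑ i ∈ Ico j (m+1), p i = 1 := by
        rw [Finset.sum_Ico_consecutive _ hj1 hjm, hsp]
      have h2 : ∑ i ∈ Ico 1 j, r i + (r j + ∑ i ∈ Ico (j+1) (m+1+1), r i) = 1 := by
        rw [← Finset.sum_eq_sum_Ico_succ_bot (by omega), Finset.sum_Ico_consecutive _ hj1 (by omega),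
          hsr]
      have h3 : ∑ i ∈ Ico (j+1) (m+1+1), r i ≤ ∑ i ∈ Ico j (m+1), p i := by
        rw [← Finset.sum_Ico_add' (fun i => r i) j (m+1) 1]
        apply Finset.sum_le_sum
        intro i hi
        rw [mem_Ico] at hi
        exact hrp' i (by omega) (by omega)
      linarith
  · simp
  · have h2 : ∑ i ∈ Ico 1 (m+1), r i + r (m+1) = 1 := by
      rw [← Finset.sum_Ico_succ_top (by omega), hsr]
    show (∑ i ∈ Ico 1 (m+1), (p i - r i)) / r (m+1) = 1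
    rw [Finset.sum_sub_distrib, hsp, div_eq_one_iff_eq (hrpos _).ne']
    linarith
  · intro j hj1 hjm
    have e1 : uu (j+1) / uu j = kappa m * (r (j+1) / p j) := by
      simp only [hp, hr]
      rw [show m + 1 - (j+1) = m - j by omega, hκ]
      have := (uu_pos j).ne'
      have := (uu_pos (j+1)).ne'
      have := (vv_pos (m-j)).ne'
      have := hZm.ne'
      have := hκpos.ne'
      field_simp
    have e2 : vv (m+1-j) / vv (m-j) = kappa m * (r j / p j) := by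
      simp only [hp, hr]
      rw [hκ]
      have := (uu_pos j).ne'
      have := (vv_pos (m-j)).ne'
      have := (vv_pos (m+1-j)).ne'
      have := hZm.ne'
      have := hκpos.ne'
      field_simp
    have hpj : p j ≠ 0 := (div_pos (mul_pos (uu_pos j) (vv_pos _)) hZm).ne'
    rw [e1, e2]
    simp only
    rw [Finset.sum_Ico_succ_top hj1]
    have h1 := (hrpos j).ne'
    have h2 := (hrpos (j+1)).ne'
    field_simp
    ring

end Pool.Agent.Lib66.TreeNum
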