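import Mathlib

set_option autoImplicit false

namespace Pool.Agent.Lib66.TreeRec

open Finset

variable {V : Type*} [Fintype V] [DecidableEq V]

/-- All edges of `T` lie inside `U`, and `T` connects `U`. -/
def ConnOn (T : SimpleGraph V) (U : Finset V) : Prop :=
  (∀ a b, T.Adj a b → a ∈ U) ∧ ∀ a ∈ U, ∀ b ∈ U, T.Reachable a b

/-- `T` is (the edge set of) a tree with vertex set `U`. -/
def IsTreeOn (T : SimpleGraph V) (U : Finset V) : Prop :=
  ConnOn T U ∧ T.edgeSet.ncard + 1 = U.card

omit [Fintype V] [DecidableEq V] in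
theorem reach_induce (T : SimpleGraph V) (U : Set V) (h : ∀ a b, T.Adj a b → a ∈ U)
    (a b : V) (ha : a ∈ U) (hb : b ∈ U) (hr : T.Reachable a b) :
    (T.induce U).Reachable ⟨a, ha⟩ ⟨b, hb⟩ := by
  obtain ⟨p⟩ := hr
  induction p with
  | nil => exact SimpleGraph.Reachable.refl _
  | @cons u v w hadj p ih =>
    have hv : v ∈ U := h _ _ hadj.symm
    have h1 : (T.induce U).Adj ⟨u, ha⟩ ⟨v, hv⟩ := by
      simpa using hadj
    exact h1.reachable.trans (ih hv hb)

omit [Fintype V] [DecidableEq V] in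
theorem card_edge_induce (T : SimpleGraph V) (U : Set V) (h : ∀ a b, T.Adj a b → a ∈ U) :
    Nat.card (T.induce U).edgeSet = T.edgeSet.ncard := by
  rw [← Nat.card_coe_set_eq]
  apply Nat.card_congr
  apply Equiv.ofBijective (SimpleGraph.Embedding.induce (G := T) U).mapEdgeSet
  constructor
  · exact (SimpleGraph.Embedding.induce (G := T) U).mapEdgeSet.injective
  · rintro ⟨e, he⟩
    induction e using Sym2.ind with
    | _ a b =>
      rw [SimpleGraph.mem_edgeSet] at he
      refine ⟨⟨s(⟨a, h _ _ he⟩, ⟨b, h _ _ he.symm⟩), ?_⟩, ?_⟩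
      · rw [SimpleGraph.mem_edgeSet]
        simpa using he
      · apply Subtype.ext
        simp [SimpleGraph.Embedding.mapEdgeSet, SimpleGraph.Hom.mapEdgeSet]

omit [Fintype V] [DecidableEq V] in
theorem conn_card (T : SimpleGraph V) (U : Finset V) (h : ConnOn T U) (hU : U.Nonempty) :
    U.card ≤ T.edgeSet.ncard + 1 := by
  have hc : (T.induce (U : Set V)).Connected := by
    have : Nonempty (U : Set V) := by
      obtain ⟨a, ha⟩ := hU
      exact ⟨⟨a, ha⟩⟩
    refine ⟨?_⟩
    rintro ⟨a, ha⟩ ⟨b, hb⟩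
    exact reach_induce T U h.1 a b ha hb (h.2 a ha b hb)
  have h1 := hc.card_vert_le_card_edgeSet_add_one
  rw [card_edge_induce T U h.1] at h1
  have h2 : Nat.card (U : Set V) = U.card := by simp
  rwa [h2] at h1

/-- The restriction of `T` to `A`. -/
def restr (T : SimpleGraph V) (A : Finset V) : SimpleGraph V where
  Adj a b := T.Adj a b ∧ a ∈ A ∧ b ∈ A
  symm := ⟨fun _ _ h => ⟨h.1.symm, h.2.2, h.2.1⟩⟩
  loopless := ⟨fun _ h => h.1.ne rfl⟩

/-- `T` with the edges at `x` removed. -/
def delv (T : SimpleGraph V) (x : V) : SimpleGraph V where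
  Adj a b := T.Adj a b ∧ a ≠ x ∧ b ≠ x
  symm := ⟨fun _ _ h => ⟨h.1.symm, h.2.2, h.2.1⟩⟩
  loopless := ⟨fun _ h => h.1.ne rfl⟩

open Classical in
/-- The component of `u` in `T` without `x`. -/
noncomputable def comp (T : SimpleGraph V) (x u : V) : Finset V :=
  univ.filter (fun v => (delv T x).Reachable u v)

theorem mem_comp (T : SimpleGraph V) (x u v : V) : v ∈ comp T x u ↔ (delv T x).Reachable u v := by
  simp [comp]

/-- Gluing two trees along an edge `xy`. -/
def glue (T1 T2 : SimpleGraph V) (x y : V) : SimpleGraph V := T1 ⊔ T2 ⊔ SimpleGraph.edge x y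

omit [Fintype V] [DecidableEq V] in
theorem glue_adj (T1 T2 : SimpleGraph V) (x y a b : V) (hxy : x ≠ y) :
    (glue T1 T2 x y).Adj a b ↔ T1.Adj a b ∨ T2.Adj a b ∨ (a = x ∧ b = y) ∨ (a = y ∧ b = x) := by
  unfold glue
  rw [SimpleGraph.sup_adj, SimpleGraph.sup_adj, SimpleGraph.edge_adj]
  constructor
  · rintro ((h | h) | h)
    · exact Or.inl h
    · exact Or.inr (Or.inl h)
    · exact Or.inr (Or.inr h.1)
  · rintro (h | h | h | h)
    · exact Or.inl (Or.inl h)
    · exact Or.inl (Or.inr h)
    · refine Or.inr ⟨Or.inl h, ?_⟩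
      rw [h.1, h.2]; exact hxy
    · refine Or.inr ⟨Or.inr h, ?_⟩
      rw [h.1, h.2]; exact hxy.symm

omit [DecidableEq V] in
theorem glue_card (T1 T2 : SimpleGraph V) (x y : V) (A B : Finset V) (hAB : Disjoint A B)
    (h1 : ∀ a b, T1.Adj a b → a ∈ A) (h2 : ∀ a b, T2.Adj a b → a ∈ B) (hy : y ∈ A) (hx : x ∈ B) :
    (glue T1 T2 x y).edgeSet.ncard = T1.edgeSet.ncard + T2.edgeSet.ncard + 1 := by
  have hxy : x ≠ y := by
    rintro rfl
    exact Finset.disjoint_left.1 hAB hy hx
  unfold glue
  rw [SimpleGraph.edgeSet_sup, SimpleGraph.edgeSet_sup, SimpleGraph.edgeSet_edge_of_ne hxy,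
    Set.ncard_union_eq _ (Set.toFinite _) (Set.toFinite _),
    Set.ncard_union_eq _ (Set.toFinite _) (Set.toFinite _), Set.ncard_singleton]
  · rw [Set.disjoint_left]
    intro e he1 he2
    induction e using Sym2.ind with
    | _ a b =>
      rw [SimpleGraph.mem_edgeSet] at he1 he2
      exact Finset.disjoint_left.1 hAB (h1 _ _ he1) (h2 _ _ he2)
  · rw [Set.disjoint_singleton_right]
    rintro (h | h)
    · rw [SimpleGraph.mem_edgeSet] at h
      exact Finset.disjoint_left.1 hAB (h1 _ _ h) hx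
    · rw [SimpleGraph.mem_edgeSet] at h
      exact Finset.disjoint_left.1 hAB hy (h2 _ _ h.symm)

theorem glue_tree (T1 T2 : SimpleGraph V) (x y : V) (A B : Finset V) (hAB : Disjoint A B)
    (h1 : IsTreeOn T1 A) (h2 : IsTreeOn T2 B) (hy : y ∈ A) (hx : x ∈ B) :
    IsTreeOn (glue T1 T2 x y) (A ∪ B) := by
  have hxy : x ≠ y := by
    rintro rfl
    exact Finset.disjoint_left.1 hAB hy hx
  refine ⟨⟨?_, ?_⟩, ?_⟩
  · intro a b hab
    rw [glue_adj _ _ _ _ _ _ hxy] at hab
    rw [Finset.mem_union]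
    rcases hab with h | h | ⟨rfl, rfl⟩ | ⟨rfl, rfl⟩
    · exact Or.inl (h1.1.1 _ _ h)
    · exact Or.inr (h2.1.1 _ _ h)
    · exact Or.inr hx
    · exact Or.inl hy
  · have key : ∀ a ∈ A ∪ B, (glue T1 T2 x y).Reachable a x := by
      intro a ha
      rcases Finset.mem_union.1 ha with h | h
      · have e1 : (glue T1 T2 x y).Reachable a y :=
          (h1.1.2 a h y hy).mono (le_sup_left.trans le_sup_left)
        have e2 : (glue T1 T2 x y).Adj y x := by
          rw [glue_adj _ _ _ _ _ _ hxy]
          exact Or.inr (Or.inr (Or.inr ⟨rfl, rfl⟩))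
        exact e1.trans e2.reachable
      · exact (h2.1.2 a h x hx).mono (le_sup_right.trans le_sup_left)
    intro a ha b hb
    exact (key a ha).trans (key b hb).symm
  · rw [glue_card T1 T2 x y A B hAB h1.1.1 h2.1.1 hy hx, Finset.card_union_of_disjoint hAB,
      ← h1.2, ← h2.2]
    ring

/-- In a glued tree the component is recovered. -/
theorem comp_glue (T1 T2 : SimpleGraph V) (x y u : V) (A B : Finset V) (hAB : Disjoint A B)
    (h1 : IsTreeOn T1 A) (h2 : IsTreeOn T2 B) (hy : y ∈ A) (hx : x ∈ B) (hu : u ∈ A) :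
    comp (glue T1 T2 x y) x u = A := by
  have hxy : x ≠ y := by
    rintro rfl
    exact Finset.disjoint_left.1 hAB hy hx
  have hxA : x ∉ A := fun h => Finset.disjoint_left.1 hAB h hx
  ext v
  rw [mem_comp]
  constructor
  · rintro ⟨p⟩
    induction p with
    | nil => exact hu
    | @cons a b c hab p ih =>
      apply ih
      obtain ⟨hab1, hax, hbx⟩ := hab
      rw [glue_adj _ _ _ _ _ _ hxy] at hab1
      rcases hab1 with h | h | ⟨rfl, rfl⟩ | ⟨rfl, rfl⟩
      · exact h1.1.1 _ _ h.symm
      · exact absurd (h2.1.1 _ _ h) (Finset.disjoint_left.1 hAB hu)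
      · exact absurd rfl hax
      · exact absurd rfl hbx
  · intro hv
    apply (h1.1.2 u hu v hv).mono
    intro a b hab
    refine ⟨?_, ?_, ?_⟩
    · rw [glue_adj _ _ _ _ _ _ hxy]; exact Or.inl hab
    · rintro rfl; exact hxA (h1.1.1 _ _ hab)
    · rintro rfl; exact hxA (h1.1.1 _ _ hab.symm)

omit [Fintype V] [DecidableEq V] in
theorem restr_glue_left (T1 T2 : SimpleGraph V) (x y : V) (A B : Finset V) (hAB : Disjoint A B)
    (h1 : ∀ a b, T1.Adj a b → a ∈ A) (h2 : ∀ a b, T2.Adj a b → a ∈ B) (hy : y ∈ A) (hx : x ∈ B) :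
    restr (glue T1 T2 x y) A = T1 := by
  have hxy : x ≠ y := by
    rintro rfl
    exact Finset.disjoint_left.1 hAB hy hx
  have hxA : x ∉ A := fun h => Finset.disjoint_left.1 hAB h hx
  ext a b
  show (glue T1 T2 x y).Adj a b ∧ a ∈ A ∧ b ∈ A ↔ _
  rw [glue_adj _ _ _ _ _ _ hxy]
  constructor
  · rintro ⟨h | h | ⟨rfl, rfl⟩ | ⟨rfl, rfl⟩, ha, hb⟩
    · exact h
    · exact absurd (h2 _ _ h) (Finset.disjoint_left.1 hAB ha)
    · exact absurd ha hxA
    · exact absurd hb hxA
  · intro h
    exact ⟨Or.inl h, h1 _ _ h, h1 _ _ h.symm⟩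

omit [Fintype V] [DecidableEq V] in
theorem restr_glue_right (T1 T2 : SimpleGraph V) (x y : V) (A B : Finset V) (hAB : Disjoint A B)
    (h1 : ∀ a b, T1.Adj a b → a ∈ A) (h2 : ∀ a b, T2.Adj a b → a ∈ B) (hy : y ∈ A) (hx : x ∈ B) :
    restr (glue T1 T2 x y) B = T2 := by
  have hxy : x ≠ y := by
    rintro rfl
    exact Finset.disjoint_left.1 hAB hy hx
  have hyB : y ∉ B := fun h => Finset.disjoint_left.1 hAB hy h
  ext a b
  show (glue T1 T2 x y).Adj a b ∧ a ∈ B ∧ b ∈ B ↔ _
  rw [glue_adj _ _ _ _ _ _ hxy]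
  constructor
  · rintro ⟨h | h | ⟨rfl, rfl⟩ | ⟨rfl, rfl⟩, ha, hb⟩
    · exact absurd ha (Finset.disjoint_left.1 hAB (h1 _ _ h))
    · exact h
    · exact absurd hb hyB
    · exact absurd ha hyB
  · intro h
    exact ⟨Or.inr (Or.inl h), h2 _ _ h, h2 _ _ h.symm⟩

/-- Decomposition of a tree at the branch of `x` towards `u`. -/
theorem decompose (T : SimpleGraph V) (x u : V) (S : Finset V) (hx : x ∉ S) (hu : u ∈ S)
    (hT : IsTreeOn T (insert x S)) :
    comp T x u ⊆ S ∧ u ∈ comp T x u ∧ ∃ y ∈ comp T x u, T.Adj x y ∧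
      IsTreeOn (restr T (comp T x u)) (comp T x u) ∧
      IsTreeOn (restr T (insert x (S \ comp T x u))) (insert x (S \ comp T x u)) ∧
      glue (restr T (comp T x u)) (restr T (insert x (S \ comp T x u))) x y = T := by
  set A := comp T x u with hA
  have huA : u ∈ A := by rw [hA, mem_comp]
  have hux : u ≠ x := fun h => hx (h ▸ hu)
  -- `A ⊆ S`
  have hxA : x ∉ A := by
    rw [hA, mem_comp]
    rintro ⟨p⟩
    -- the last edge of the walk would contain `x`
    have : ∀ (a b : V) (p : (delv T x).Walk a b), b = x → a = x := by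
      intro a b p
      induction p with
      | nil => exact fun h => h
      | @cons a b c hab p ih =>
        intro hc
        exact absurd (ih hc) hab.2.2
    exact hux (this _ _ p rfl)
  have hAstep : ∀ a b, a ∈ A → T.Adj a b → b ≠ x → b ∈ A := by
    intro a b ha hab hbx
    rw [hA, mem_comp] at ha ⊢
    have hax : a ≠ x := by
      rintro rfl
      exact hxA (by rw [hA, mem_comp]; exact ha)
    have h1 : (delv T x).Adj a b := ⟨hab, hax, hbx⟩
    exact ha.trans h1.reachable
  have hAS : A ⊆ S := by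
    intro v hv
    have hv' := hv
    rw [hA, mem_comp] at hv'
    have : ∀ (a b : V) (p : (delv T x).Walk a b), a ∈ S → b ∈ S := by
      intro a b p
      induction p with
      | nil => exact fun h => h
      | @cons a b c hab p ih =>
        intro _
        apply ih
        have h1 := hT.1.1 _ _ hab.1.symm
        rw [Finset.mem_insert] at h1
        exact h1.resolve_left hab.2.2
    obtain ⟨p⟩ := hv'
    exact this _ _ p hu
  set B := insert x (S \ A) with hB
  have hxB : x ∈ B := Finset.mem_insert_self _ _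
  have hAB : Disjoint A B := by
    rw [Finset.disjoint_left]
    intro a ha hb
    rw [hB, Finset.mem_insert, Finset.mem_sdiff] at hb
    rcases hb with rfl | hb
    · exact hxA ha
    · exact hb.2 ha
  have hunion : A ∪ B = insert x S := by
    rw [hB, Finset.union_insert, Finset.union_sdiff_of_subset hAS]
  -- a neighbour of `x` in `A`
  obtain ⟨y, hyA, hxy⟩ : ∃ y ∈ A, T.Adj x y := by
    have : ∀ (a b : V) (p : T.Walk a b), b = x → a ∈ A → ∃ y ∈ A, T.Adj x y := by
      intro a b p
      induction p with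
      | nil => intro h ha; exact absurd (h ▸ ha) hxA
      | @cons a b c hab p ih =>
        intro hc ha
        by_cases hbx : b = x
        · exact ⟨a, ha, (hbx ▸ hab).symm⟩
        · exact ih hc (hAstep a b ha hab hbx)
    obtain ⟨p⟩ := hT.1.2 u (Finset.mem_insert_of_mem hu) x (Finset.mem_insert_self _ _)
    exact this _ _ p rfl huA
  have hxy' : x ≠ y := hxy.ne
  -- connectivity of the two parts
  have hc1 : ConnOn (restr T A) A := by
    refine ⟨fun a b h => h.2.1, ?_⟩
    have key : ∀ v ∈ A, (restr T A).Reachable u v := by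
      intro v hv
      rw [hA, mem_comp] at hv
      obtain ⟨p⟩ := hv
      have : ∀ (a b : V) (p : (delv T x).Walk a b), a ∈ A → (restr T A).Reachable a b := by
        intro a b p
        induction p with
        | nil => exact fun _ => SimpleGraph.Reachable.refl _
        | @cons a b c hab p ih =>
          intro ha
          have hb : b ∈ A := hAstep a b ha hab.1 hab.2.2
          have h1 : (restr T A).Adj a b := ⟨hab.1, ha, hb⟩
          exact h1.reachable.trans (ih hb)
      exact this _ _ p huA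
    intro a ha b hb
    exact (key a ha).symm.trans (key b hb)
  have hc2 : ConnOn (restr T B) B := by
    refine ⟨fun a b h => h.2.1, ?_⟩
    have key : ∀ v ∈ B, (restr T B).Reachable v x := by
      intro v hv
      have : ∀ (a b : V) (p : T.Walk a b), b = x → a ∈ B → (restr T B).Reachable a x := by
        intro a b p
        induction p with
        | nil => intro h _; rw [h]
        | @cons a b c hab p ih =>
          intro hc ha
          by_cases hax : a = x
          · rw [hax]
          · have hb : b ∈ B := by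
              by_cases hbx : b = x
              · rw [hbx]; exact hxB
              · have h1 := hT.1.1 _ _ hab.symm
                rw [Finset.mem_insert] at h1
                have hbS := h1.resolve_left hbx
                rw [hB, Finset.mem_insert, Finset.mem_sdiff]
                refine Or.inr ⟨hbS, ?_⟩
                intro hbA
                have haA := hAstep b a hbA hab.symm hax
                exact Finset.disjoint_left.1 hAB haA ha
            have h1 : (restr T B).Adj a b := ⟨hab, ha, hb⟩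
            exact h1.reachable.trans (ih hc hb)
      have hvU : v ∈ insert x S := by
        rw [← hunion]; exact Finset.mem_union_right _ hv
      obtain ⟨p⟩ := hT.1.2 v hvU x (Finset.mem_insert_self _ _)
      exact this _ _ p rfl hv
    intro a ha b hb
    exact (key a ha).trans (key b hb).symm
  -- counting edges
  have hle : glue (restr T A) (restr T B) x y ≤ T := by
    intro a b hab
    rw [glue_adj _ _ _ _ _ _ hxy'] at hab
    rcases hab with h | h | ⟨rfl, rfl⟩ | ⟨rfl, rfl⟩
    · exact h.1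
    · exact h.1
    · exact hxy
    · exact hxy.symm
  have hcard := glue_card (restr T A) (restr T B) x y A B hAB hc1.1 hc2.1 hyA hxB
  have hle' : (glue (restr T A) (restr T B) x y).edgeSet ⊆ T.edgeSet :=
    SimpleGraph.edgeSet_subset_edgeSet.2 hle
  have hle'' := Set.ncard_le_ncard hle' (Set.toFinite _)
  have hn1 := conn_card _ _ hc1 ⟨u, huA⟩
  have hn2 := conn_card _ _ hc2 ⟨x, hxB⟩
  have hcU : A.card + B.card = (insert x S).card := by
    rw [← hunion, Finset.card_union_of_disjoint hAB]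
  have hTc := hT.2
  refine ⟨hAS, huA, y, hyA, hxy, ⟨hc1, by omega⟩, ⟨hc2, by omega⟩, ?_⟩
  apply SimpleGraph.edgeSet_injective
  apply Set.eq_of_subset_of_ncard_le hle' _ (Set.toFinite _)
  omega

open Classical in
/-- The trees with vertex set `U` in `G`. -/
noncomputable def Tr (G : SimpleGraph V) (U : Finset V) : Finset (SimpleGraph V) :=
  univ.filter (fun T => T ≤ G ∧ IsTreeOn T U)

theorem mem_Tr (G : SimpleGraph V) (U : Finset V) (T : SimpleGraph V) :
    T ∈ Tr G U ↔ T ≤ G ∧ IsTreeOn T U := by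
  simp [Tr]

/-- The number of trees with vertex set `U` in `G`. -/
noncomputable def tau (G : SimpleGraph V) (U : Finset V) : ℕ := (Tr G U).card

open Classical in
theorem tau_rec_fixed (G : SimpleGraph V) (x u : V) (S : Finset V) (hx : x ∉ S) (hu : u ∈ S) :
    tau G (insert x S) = ∑ A ∈ S.powerset.filter (fun A => u ∈ A),
      (A.filter (fun y => G.Adj x y)).card * (tau G A * tau G (insert x (S \ A))) := by
  have h1 : ∑ A ∈ S.powerset.filter (fun A => u ∈ A),
      (A.filter (fun y => G.Adj x y)).card * (tau G A * tau G (insert x (S \ A))) =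
      ((S.powerset.filter (fun A => u ∈ A)).sigma (fun A =>
        (A.filter (fun y => G.Adj x y)) ×ˢ (Tr G A ×ˢ Tr G (insert x (S \ A))))).card := by
    rw [Finset.card_sigma]
    apply Finset.sum_congr rfl
    intro A _
    rw [Finset.card_product, Finset.card_product]
    rfl
  rw [h1]
  symm
  have hdisj : ∀ A ⊆ S, Disjoint A (insert x (S \ A)) := by
    intro A hA
    rw [Finset.disjoint_left]
    intro a ha hb
    rw [Finset.mem_insert, Finset.mem_sdiff] at hb
    rcases hb with rfl | hb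
    · exact hx (hA ha)
    · exact hb.2 ha
  apply Finset.card_bij (fun z _ => glue z.2.2.1 z.2.2.2 x z.2.1)
  · rintro ⟨A, y, T1, T2⟩ hz
    simp only [Finset.mem_sigma, Finset.mem_filter, Finset.mem_powerset, Finset.mem_product,
      mem_Tr] at hz
    obtain ⟨⟨hAS, huA⟩, ⟨hyA, hxy⟩, ⟨hT1G, hT1⟩, ⟨hT2G, hT2⟩⟩ := hz
    rw [mem_Tr]
    have h2 := glue_tree T1 T2 x y A (insert x (S \ A)) (hdisj A hAS) hT1 hT2 hyA
      (Finset.mem_insert_self _ _)
    rw [Finset.union_insert, Finset.union_sdiff_of_subset hAS] at h2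
    refine ⟨?_, h2⟩
    intro a b hab
    rw [glue_adj _ _ _ _ _ _ hxy.ne] at hab
    rcases hab with h | h | ⟨rfl, rfl⟩ | ⟨rfl, rfl⟩
    · exact hT1G h
    · exact hT2G h
    · exact hxy
    · exact hxy.symm
  · rintro ⟨A, y, T1, T2⟩ hz ⟨A', y', T1', T2'⟩ hz' heq
    simp only [Finset.mem_sigma, Finset.mem_filter, Finset.mem_powerset, Finset.mem_product,
      mem_Tr] at hz hz' heq
    obtain ⟨⟨hAS, huA⟩, ⟨hyA, hxy⟩, ⟨hT1G, hT1⟩, ⟨hT2G, hT2⟩⟩ := hz
    obtain ⟨⟨hAS', huA'⟩, ⟨hyA', hxy'⟩, ⟨hT1G', hT1'⟩, ⟨hT2G', hT2'⟩⟩ := hz'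
    have e1 := comp_glue T1 T2 x y u A (insert x (S \ A)) (hdisj A hAS) hT1 hT2 hyA
      (Finset.mem_insert_self _ _) huA
    have e2 := comp_glue T1' T2' x y' u A' (insert x (S \ A')) (hdisj A' hAS') hT1' hT2' hyA'
      (Finset.mem_insert_self _ _) huA'
    rw [heq, e2] at e1
    subst e1
    have f1 := restr_glue_left T1 T2 x y A' (insert x (S \ A')) (hdisj A' hAS) hT1.1.1 hT2.1.1 hyA
      (Finset.mem_insert_self _ _)
    have f2 := restr_glue_left T1' T2' x y' A' (insert x (S \ A')) (hdisj A' hAS) hT1'.1.1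
      hT2'.1.1 hyA' (Finset.mem_insert_self _ _)
    rw [heq, f2] at f1
    have g1 := restr_glue_right T1 T2 x y A' (insert x (S \ A')) (hdisj A' hAS) hT1.1.1 hT2.1.1 hyA
      (Finset.mem_insert_self _ _)
    have g2 := restr_glue_right T1' T2' x y' A' (insert x (S \ A')) (hdisj A' hAS) hT1'.1.1
      hT2'.1.1 hyA' (Finset.mem_insert_self _ _)
    rw [heq, g2] at g1
    subst f1
    subst g1
    have hyy : y = y' := by
      have : (glue T1' T2' x y').Adj x y := by
        rw [← heq, glue_adj _ _ _ _ _ _ hxy.ne]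
        exact Or.inr (Or.inr (Or.inl ⟨rfl, rfl⟩))
      rw [glue_adj _ _ _ _ _ _ hxy'.ne] at this
      rcases this with h | h | h | h
      · exact absurd (hAS (hT1.1.1 _ _ h)) hx
      · exact absurd (hT2.1.1 _ _ h.symm) (Finset.disjoint_left.1 (hdisj A' hAS) hyA)
      · exact h.2
      · exact absurd h.1 hxy'.ne
    subst hyy
    rfl
  · intro T hT
    rw [mem_Tr] at hT
    obtain ⟨hAS, huA, y, hyA, hxy, ht1, ht2, hg⟩ := decompose T x u S hx hu hT.2
    refine ⟨⟨comp T x u, y, restr T (comp T x u), restr T (insert x (S \ comp T x u))⟩, ?_, hg⟩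
    simp only [Finset.mem_sigma, Finset.mem_filter, Finset.mem_powerset, Finset.mem_product,
      mem_Tr]
    exact ⟨⟨hAS, huA⟩, ⟨hyA, hT.1 hxy⟩, ⟨fun a b h => hT.1 h.1, ht1⟩,
      ⟨fun a b h => hT.1 h.1, ht2⟩⟩

open Classical in
theorem tau_rec (G : SimpleGraph V) (x : V) (S : Finset V) (hx : x ∉ S) :
    S.card * tau G (insert x S) = ∑ A ∈ S.powerset,
      (A.card * ((A.filter (fun y => G.Adj x y)).card * tau G A)) * tau G (insert x (S \ A)) := by
  have h1 : S.card * tau G (insert x S) = ∑ u ∈ S, tau G (insert x S) := by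
    rw [Finset.sum_const, smul_eq_mul]
  rw [h1]
  have h2 : ∑ u ∈ S, tau G (insert x S) = ∑ u ∈ S, ∑ A ∈ S.powerset.filter (fun A => u ∈ A),
      (A.filter (fun y => G.Adj x y)).card * (tau G A * tau G (insert x (S \ A))) :=
    Finset.sum_congr rfl (fun u hu => tau_rec_fixed G x u S hx hu)
  rw [h2]
  have h3 : ∑ u ∈ S, ∑ A ∈ S.powerset.filter (fun A => u ∈ A),
      (A.filter (fun y => G.Adj x y)).card * (tau G A * tau G (insert x (S \ A))) =
      ∑ A ∈ S.powerset, ∑ u ∈ A,
        (A.filter (fun y => G.Adj x y)).card * (tau G A * tau G (insert x (S \ A))) := by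
    apply Finset.sum_comm'
    intro u A
    simp only [Finset.mem_filter, Finset.mem_powerset]
    constructor
    · rintro ⟨_, h, h'⟩; exact ⟨h', h⟩
    · rintro ⟨h, h'⟩; exact ⟨h' h, h', h⟩
  rw [h3]
  apply Finset.sum_congr rfl
  intro A _
  rw [Finset.sum_const, smul_eq_mul]
  ring

end Pool.Agent.Lib66.TreeRec
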