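import Mathlib
import Pool.Agent.Lib_helper66.TreeNumbers
import Pool.Agent.Lib_helper66.TreeRec

set_option autoImplicit false

namespace Pool.Agent.Lib66.TreeIneq

open Finset TreeNum TreeRec

variable {V : Type*} [Fintype V] [DecidableEq V]

theorem tau_singleton_le (G : SimpleGraph V) (s : V) : tau G {s} ≤ 1 := by
  unfold tau
  rw [Finset.card_le_one]
  have key : ∀ T ∈ Tr G {s}, T = ⊥ := by
    intro T hT
    rw [mem_Tr] at hT
    ext a b
    simp only [SimpleGraph.bot_adj, iff_false]
    intro hab
    have h1 := hT.2.1.1 _ _ hab
    have h2 := hT.2.1.1 _ _ hab.symm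
    rw [Finset.mem_singleton] at h1 h2
    exact hab.ne (h1.trans h2.symm)
  intro T hT T' hT'
  rw [key T hT, key T' hT']

open Classical in
/-- number of neighbours of `x` in `A`, times the number of trees on `A` -/
noncomputable def ee (G : SimpleGraph V) (x : V) (A : Finset V) : ℝ :=
  ((A.filter (fun y => G.Adj x y)).card : ℝ) * (tau G A : ℝ)

/-- the size-biased branch weight -/
noncomputable def FF (G : SimpleGraph V) (x : V) (A : Finset V) : ℝ := (A.card : ℝ) * ee G x A

theorem ee_nonneg (G : SimpleGraph V) (x : V) (A : Finset V) : 0 ≤ ee G x A := by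
  unfold ee; positivity

theorem FF_nonneg (G : SimpleGraph V) (x : V) (A : Finset V) : 0 ≤ FF G x A :=
  mul_nonneg (Nat.cast_nonneg _) (ee_nonneg G x A)

theorem FF_empty (G : SimpleGraph V) (x : V) : FF G x ∅ = 0 := by simp [FF]

theorem rec_real (G : SimpleGraph V) (x : V) (S : Finset V) (hx : x ∉ S) :
    (S.card : ℝ) * (tau G (insert x S) : ℝ) =
      ∑ A ∈ S.powerset, FF G x A * (tau G (insert x (S \ A)) : ℝ) := by
  classical
  have h := tau_rec G x S hx
  have h' : ((S.card * tau G (insert x S) : ℕ) : ℝ) = ((∑ A ∈ S.powerset,
      (A.card * ((A.filter (fun y => G.Adj x y)).card * tau G A)) * tau G (insert x (S \ A)) : ℕ) : ℝ) := by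
    rw [h]
  push_cast at h'
  rw [h']
  apply Finset.sum_congr rfl
  intro A _
  unfold FF ee
  congr!

/-- The induction hypothesis transported to the branch weights. -/
theorem ee_bound (G : SimpleGraph V) (x : V) (A : Finset V) (k : ℕ) (hA : A.card = k + 2)
    (ih : ∀ y ∈ A, (tau G (insert y (A.erase y)) : ℝ) ≤
      (vv (k+1) / vv k) * ∑ v ∈ A.erase y, (tau G (insert y ((A.erase y).erase v)) : ℝ)) :
    FF G x A ≤ (uu (k+2) / uu (k+1)) * ∑ v ∈ A, FF G x (A.erase v) := by
  classical
  have h1 : ee G x A ≤ (vv (k+1) / vv k) * ∑ v ∈ A, ee G x (A.erase v) := by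
    have e1 : ee G x A = ∑ y ∈ A.filter (fun y => G.Adj x y), (tau G A : ℝ) := by
      unfold ee
      rw [Finset.sum_const, nsmul_eq_mul]
    have e2 : ∀ v ∈ A, ee G x (A.erase v) =
        ∑ y ∈ (A.erase v).filter (fun y => G.Adj x y), (tau G (A.erase v) : ℝ) := by
      intro v _
      unfold ee
      rw [Finset.sum_const, nsmul_eq_mul]
    rw [e1, Finset.sum_congr rfl e2]
    have e3 : ∑ v ∈ A, ∑ y ∈ (A.erase v).filter (fun y => G.Adj x y), (tau G (A.erase v) : ℝ) =
        ∑ y ∈ A.filter (fun y => G.Adj x y), ∑ v ∈ A.erase y, (tau G (A.erase v) : ℝ) := by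
      apply Finset.sum_comm'
      intro v y
      simp only [Finset.mem_filter, Finset.mem_erase]
      tauto
    rw [e3, Finset.mul_sum]
    apply Finset.sum_le_sum
    intro y hy
    rw [Finset.mem_filter] at hy
    have h2 := ih y hy.1
    rw [Finset.insert_erase hy.1] at h2
    refine h2.trans (le_of_eq ?_)
    congr 1
    apply Finset.sum_congr rfl
    intro v hv
    rw [Finset.mem_erase] at hv
    congr 2
    rw [Finset.erase_right_comm, Finset.insert_erase]
    rw [Finset.mem_erase]
    exact ⟨hv.1.symm, hy.1⟩
  have hk1 : (0:ℝ) < (k:ℝ) + 1 := by positivity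
  have hk2 : (0:ℝ) < (k:ℝ) + 2 := by positivity
  have h3 : ∑ v ∈ A, FF G x (A.erase v) = ((k:ℝ) + 1) * ∑ v ∈ A, ee G x (A.erase v) := by
    rw [Finset.mul_sum]
    apply Finset.sum_congr rfl
    intro v hv
    unfold FF
    rw [Finset.card_erase_of_mem hv, hA]
    push_cast
    ring_nf
  have h4 : uu (k+2) / uu (k+1) = (((k:ℝ) + 2) / (k + 1)) * (vv (k+1) / vv k) := by
    have := uu_ratio (k+1) (by omega)
    push_cast at this
    rw [show k + 2 = k + 1 + 1 from rfl, this, vv_ratio, show (k:ℝ) + 1 + 1 = k + 2 by ring, pow_succ]
    ring
  unfold FF at h3 ⊢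
  rw [h3, h4, hA]
  push_cast
  calc ((k:ℝ) + 2) * ee G x A ≤ ((k:ℝ) + 2) * ((vv (k+1) / vv k) * ∑ v ∈ A, ee G x (A.erase v)) :=
        mul_le_mul_of_nonneg_left h1 hk2.le
    _ = _ := by field_simp

/-- Rooted inequality: for a root `x` and a set `S` of `m + 1` further vertices. -/
theorem rooted (G : SimpleGraph V) (m : ℕ) : ∀ (x : V) (S : Finset V), x ∉ S → S.card = m + 1 →
    (tau G (insert x S) : ℝ) ≤
      (vv (m+1) / vv m) * ∑ v ∈ S, (tau G (insert x (S.erase v)) : ℝ) := by
  classical
  induction m using Nat.strong_induction_on with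
  | _ m ih =>
    intro x S hx hS
    have hrec := rec_real G x S hx
    rcases Nat.eq_zero_or_pos m with hm | hm
    · subst hm
      obtain ⟨s, rfl⟩ := Finset.card_eq_one.1 hS
      have hv : vv (0+1) / vv 0 = 1 := by
        rw [vv_ratio]; simp
      rw [hv, one_mul]
      simp only [Finset.card_singleton, Nat.cast_one, one_mul] at hrec
      rw [hrec]
      have hp : ({s} : Finset V).powerset = {∅, {s}} := by
        ext A
        simp [Finset.subset_singleton_iff]
      rw [hp, Finset.sum_pair (by exact (Finset.singleton_ne_empty s).symm), FF_empty, zero_mul,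
        zero_add, Finset.sum_singleton]
      have h1 : FF G x {s} ≤ 1 := by
        unfold FF ee
        have h2 := tau_singleton_le G s
        have h3 : (({s} : Finset V).filter (fun y => G.Adj x y)).card ≤ 1 := by
          refine (Finset.card_filter_le _ _).trans ?_
          simp
        have h4 : (({s} : Finset V).filter (fun y => G.Adj x y)).card * tau G {s} ≤ 1 := by
          calc _ ≤ 1 * 1 := Nat.mul_le_mul h3 h2
            _ = 1 := rfl
        have h5 : (((({s} : Finset V).filter (fun y => G.Adj x y)).card * tau G {s} : ℕ) : ℝ) ≤ 1 := by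
          exact_mod_cast h4
        rw [Finset.card_singleton]
        push_cast at h5 ⊢
        rw [one_mul]
        convert h5
      have h6 : ({s} : Finset V) \ {s} = ({s} : Finset V).erase s := by simp
      rw [h6]
      calc FF G x {s} * (tau G (insert x (({s} : Finset V).erase s)) : ℝ)
          ≤ 1 * (tau G (insert x (({s} : Finset V).erase s)) : ℝ) :=
            mul_le_mul_of_nonneg_right h1 (Nat.cast_nonneg _)
        _ = _ := one_mul _
    · obtain ⟨θ, hθ01, hθ1, hθm, hθ⟩ := exists_theta m hm
      -- abbreviations
      set Φ : Finset V → ℝ := fun B => (tau G (insert x B) : ℝ) with hΦ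
      have hΦ0 : ∀ B, 0 ≤ Φ B := fun B => Nat.cast_nonneg _
      set α : ℕ → ℝ := fun a => θ a * (uu a / uu (a-1)) with hα
      set β : ℕ → ℝ := fun a => (1 - θ a) * (vv (m+1-a) / vv (m-a)) with hβ
      have hpt : ∀ A ∈ S.powerset, FF G x A * Φ (S \ A) ≤
          α A.card * (∑ v ∈ A, FF G x (A.erase v) * Φ (S \ A)) +
          β A.card * (∑ v ∈ S \ A, FF G x A * Φ ((S \ A).erase v)) := by
        intro A hA
        rw [Finset.mem_powerset] at hA
        rcases Nat.eq_zero_or_pos A.card with ha | ha
        · rw [Finset.card_eq_zero] at ha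
          subst ha
          simp [FF_empty]
        · have hle : A.card ≤ m + 1 := by
            rw [← hS]; exact Finset.card_le_card hA
          have hcB : (S \ A).card = m + 1 - A.card := by
            rw [Finset.card_sdiff_of_subset hA, hS]
          obtain ⟨h0, h1⟩ := hθ01 A.card ha hle
          -- first bound
          have hb1 : θ A.card * (FF G x A * Φ (S \ A)) ≤
              α A.card * (∑ v ∈ A, FF G x (A.erase v) * Φ (S \ A)) := by
            rcases Nat.lt_or_ge A.card 2 with h2 | h2
            · have : A.card = 1 := by omega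
              rw [hα]
              simp only [this, hθ1, zero_mul, le_refl]
            · obtain ⟨k, hk⟩ : ∃ k, A.card = k + 2 := ⟨A.card - 2, by omega⟩
              have hb := ee_bound G x A k hk (by
                intro y hy
                apply ih k (by omega) y (A.erase y) (Finset.notMem_erase y A)
                rw [Finset.card_erase_of_mem hy]
                omega)
              rw [← Finset.sum_mul, hα]
              simp only
              rw [hk, show k + 2 - 1 = k + 1 by omega, mul_assoc, ← mul_assoc (uu (k+2) / uu (k+1))]
              rw [hk] at h0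
              exact mul_le_mul_of_nonneg_left (mul_le_mul_of_nonneg_right hb (hΦ0 _)) h0
          -- second bound
          have hb2 : (1 - θ A.card) * (FF G x A * Φ (S \ A)) ≤
              β A.card * (∑ v ∈ S \ A, FF G x A * Φ ((S \ A).erase v)) := by
            rcases Nat.eq_or_lt_of_le hle with h2 | h2
            · rw [hβ]
              simp only [h2, hθm, sub_self, zero_mul, le_refl]
            · have hb := ih (m - A.card) (by omega) x (S \ A)
                (fun h => hx (Finset.sdiff_subset h)) (by rw [hcB]; omega)
              rw [show m - A.card + 1 = m + 1 - A.card by omega] at hb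
              rw [← Finset.mul_sum, hβ]
              simp only
              calc (1 - θ A.card) * (FF G x A * Φ (S \ A))
                  ≤ (1 - θ A.card) * (FF G x A * ((vv (m + 1 - A.card) / vv (m - A.card)) *
                      ∑ v ∈ S \ A, Φ ((S \ A).erase v))) := by
                    apply mul_le_mul_of_nonneg_left _ (by linarith)
                    exact mul_le_mul_of_nonneg_left hb (FF_nonneg G x A)
                _ = _ := by ring
          have : FF G x A * Φ (S \ A) = θ A.card * (FF G x A * Φ (S \ A)) +
              (1 - θ A.card) * (FF G x A * Φ (S \ A)) := by ring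
          rw [this]
          exact add_le_add hb1 hb2
      have hsum := Finset.sum_le_sum hpt
      rw [← hrec, Finset.sum_add_distrib] at hsum
      -- first double sum
      have hd1 : ∑ A ∈ S.powerset, α A.card * (∑ v ∈ A, FF G x (A.erase v) * Φ (S \ A)) =
          ∑ v ∈ S, ∑ A ∈ (S.erase v).powerset,
            α (A.card + 1) * (FF G x A * Φ ((S.erase v) \ A)) := by
        have e1 : ∀ A ∈ S.powerset, α A.card * (∑ v ∈ A, FF G x (A.erase v) * Φ (S \ A)) =
            ∑ v ∈ A, α A.card * (FF G x (A.erase v) * Φ (S \ A)) := by
          intro A _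
          rw [Finset.mul_sum]
        rw [Finset.sum_congr rfl e1]
        have e2 : ∑ A ∈ S.powerset, ∑ v ∈ A, α A.card * (FF G x (A.erase v) * Φ (S \ A)) =
            ∑ v ∈ S, ∑ A ∈ S.powerset.filter (fun A => v ∈ A),
              α A.card * (FF G x (A.erase v) * Φ (S \ A)) := by
          apply Finset.sum_comm'
          intro A v
          simp only [Finset.mem_filter, Finset.mem_powerset]
          constructor
          · rintro ⟨h, h'⟩; exact ⟨⟨h, h'⟩, h h'⟩
          · rintro ⟨⟨h, h'⟩, _⟩; exact ⟨h, h'⟩
        rw [e2]
        apply Finset.sum_congr rfl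
        intro v hv
        apply Finset.sum_nbij' (fun A => A.erase v) (fun A => insert v A)
        · intro A hA
          simp only [Finset.mem_filter, Finset.mem_powerset] at hA ⊢
          exact Finset.erase_subset_erase v hA.1
        · intro A hA
          simp only [Finset.mem_filter, Finset.mem_powerset] at hA ⊢
          refine ⟨?_, Finset.mem_insert_self _ _⟩
          rw [Finset.insert_subset_iff]
          exact ⟨hv, hA.trans (Finset.erase_subset _ _)⟩
        · intro A hA
          simp only [Finset.mem_filter, Finset.mem_powerset] at hA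
          exact Finset.insert_erase hA.2
        · intro A hA
          simp only [Finset.mem_powerset] at hA
          apply Finset.erase_insert
          intro h
          exact (Finset.mem_erase.1 (hA h)).1 rfl
        · intro A hA
          simp only [Finset.mem_filter, Finset.mem_powerset] at hA
          have c1 : (A.erase v).card + 1 = A.card := Finset.card_erase_add_one hA.2
          have c2 : S \ A = (S.erase v) \ (A.erase v) := by
            ext w
            simp only [Finset.mem_sdiff, Finset.mem_erase]
            constructor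
            · rintro ⟨h1, h2⟩
              refine ⟨⟨?_, h1⟩, fun h => h2 h.2⟩
              rintro rfl
              exact h2 hA.2
            · rintro ⟨⟨h1, h2⟩, h3⟩
              exact ⟨h2, fun h => h3 ⟨h1, h⟩⟩
          rw [c1, c2]
      have hd2 : ∑ A ∈ S.powerset, β A.card * (∑ v ∈ S \ A, FF G x A * Φ ((S \ A).erase v)) =
          ∑ v ∈ S, ∑ A ∈ (S.erase v).powerset,
            β A.card * (FF G x A * Φ ((S.erase v) \ A)) := by
        have e1 : ∀ A ∈ S.powerset, β A.card * (∑ v ∈ S \ A, FF G x A * Φ ((S \ A).erase v)) =
            ∑ v ∈ S \ A, β A.card * (FF G x A * Φ ((S.erase v) \ A)) := by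
          intro A _
          rw [Finset.mul_sum]
          apply Finset.sum_congr rfl
          intro v _
          rw [Finset.erase_sdiff_comm]
        rw [Finset.sum_congr rfl e1]
        apply Finset.sum_comm'
        intro A v
        simp only [Finset.mem_sdiff, Finset.mem_powerset]
        constructor
        · rintro ⟨h, h1, h2⟩
          refine ⟨?_, h1⟩
          intro w hw
          rw [Finset.mem_erase]
          refine ⟨?_, h hw⟩
          rintro rfl
          exact h2 hw
        · rintro ⟨h, h1⟩
          refine ⟨h.trans (Finset.erase_subset _ _), h1, ?_⟩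
          intro h2
          exact (Finset.mem_erase.1 (h h2)).1 rfl
      rw [hd1, hd2, ← Finset.sum_add_distrib] at hsum
      -- collect
      have hcol : ∑ v ∈ S, (∑ A ∈ (S.erase v).powerset,
            α (A.card + 1) * (FF G x A * Φ ((S.erase v) \ A)) +
          ∑ A ∈ (S.erase v).powerset, β A.card * (FF G x A * Φ ((S.erase v) \ A))) =
          kappa m * ∑ v ∈ S, (m : ℝ) * Φ (S.erase v) := by
        rw [Finset.mul_sum]
        apply Finset.sum_congr rfl
        intro v hv
        have hcard : (S.erase v).card = m := by
          rw [Finset.card_erase_of_mem hv, hS]; rfl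
        have hr := rec_real G x (S.erase v) (fun h => hx (Finset.mem_of_mem_erase h))
        rw [hcard] at hr
        rw [← Finset.sum_add_distrib]
        show _ = kappa m * ((m:ℝ) * (tau G (insert x (S.erase v)) : ℝ))
        rw [hr, Finset.mul_sum]
        apply Finset.sum_congr rfl
        intro A hA
        rw [Finset.mem_powerset] at hA
        rcases Nat.eq_zero_or_pos A.card with ha | ha
        · rw [Finset.card_eq_zero] at ha
          subst ha
          simp [FF_empty]
        · have hle : A.card ≤ m := by
            rw [← hcard]; exact Finset.card_le_card hA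
          have := hθ A.card ha hle
          rw [← this]
          simp only [hα, hβ, Nat.add_sub_cancel]
          ring
      rw [hcol, ← Finset.mul_sum] at hsum
      have hm0 : (0:ℝ) < (m:ℝ) := by exact_mod_cast hm
      have hk : kappa m * ((m:ℝ) * ∑ v ∈ S, Φ (S.erase v)) =
          ((m:ℝ) + 1) * ((vv (m+1) / vv m) * ∑ v ∈ S, Φ (S.erase v)) := by
        unfold kappa
        field_simp
      rw [hk, hS] at hsum
      push_cast at hsum
      have hm1 : (0:ℝ) < (m:ℝ) + 1 := by positivity
      exact le_of_mul_le_mul_left hsum hm1

end Pool.Agent.Lib66.TreeIneq
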